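import Pool.Agent.Helper11.RL.G
import Pool.Agent.Helper5.RM.HC3

/-! Project RL+, block G': the moment of order `2 k` of a sum of Riesz products (Bonami's inequality). -/

set_option autoImplicit false

namespace Pool.Agent.Helper11.RL

open Finset Pool.Agent.Helper5.RM

lemma riesz_expand (S : Finset ℕ) (T : Finset ℕ) (t : ℕ → ℝ) :
    ∏ p ∈ S, (1 + sg T p * t p) = ∑ U ∈ S.powerset, wal T U * ∏ p ∈ U, t p := by
  rw [Finset.prod_one_add]
  refine Finset.sum_congr rfl fun U _ => ?_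
  rw [Finset.prod_mul_distrib]
  rfl

/-- Block G' -/
theorem riesz_k (S : Finset ℕ) (a : ℕ → ℕ → ℝ) (J : ℕ) (I : Finset ℕ) (hI : I ⊆ range J) (s : ℕ → ℝ)
    (hs : ∀ j, s j ^ 2 = 1) (K v0 L : ℝ) (hK : 0 < K) (hv0 : 0 < v0) (hL : 4 * Real.log 2 ≤ L) (k : ℕ) (hk : 1 ≤ k)
    (ha : ∀ p ∈ S, ∀ j, |a p j| ≤ K) (hKL : 4 * ((2 * (k : ℝ) - 1) * (L * K ^ 2)) ≤ v0)
    (ho : ∀ p ∈ S, ∀ p' ∈ S, p ≠ p' → ∑ j ∈ range J, a p j * a p' j = 0)
    (hn : ∀ p ∈ S, ∑ j ∈ range J, a p j ^ 2 ≤ J * K / 2)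
    (hG : (I.filter (fun j => v0 ≤ ∑ p ∈ S, a p j ^ 2)).Nonempty) :
    pr S (fun T => ∀ j ∈ I, s j * ∑ p ∈ S, sg T p * a p j < (L / 4 - Real.log 2) * Real.sqrt (v0 / L)) ≤
      (2 * J * K * (L / v0) * (2 * (k : ℝ) - 1) * (1 + (2 * (k : ℝ) - 1) * L * Real.exp ((2 * (k : ℝ) - 1) * L)) /
        (I.filter (fun j => v0 ≤ ∑ p ∈ S, a p j ^ 2)).card) ^ k := by
  classical
  have hlog2 : 0 < Real.log 2 := Real.log_pos (by norm_num)
  have hL0 : 0 < L := by linarith
  obtain ⟨r, hr⟩ : ∃ r : ℝ, r = 2 * (k : ℝ) - 1 := ⟨_, rfl⟩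
  rw [← hr] at hKL ⊢
  have hk1 : (1 : ℝ) ≤ k := by exact_mod_cast hk
  have hr1 : 1 ≤ r := by linarith
  set V : ℕ → ℝ := fun j => ∑ p ∈ S, a p j ^ 2 with hV
  set G : Finset ℕ := I.filter (fun j => v0 ≤ V j) with hGdef
  have hGc : 0 < (G.card : ℝ) := by exact_mod_cast Finset.card_pos.2 hG
  have hGV : ∀ j ∈ G, v0 ≤ V j := fun j hj => (Finset.mem_filter.1 hj).2
  have hGJ : G ⊆ range J := (Finset.filter_subset _ _).trans hI
  set th : ℕ → ℝ := fun j => Real.sqrt (L / V j) with hth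
  set t : ℕ → ℕ → ℝ := fun j p => th j * s j * a p j with ht
  have hth2 : ∀ j ∈ G, th j ^ 2 = L / V j := by
    intro j hj
    have := hGV j hj
    exact Real.sq_sqrt (div_nonneg hL0.le (by linarith))
  have hth3 : ∀ j ∈ G, th j ^ 2 ≤ L / v0 := by
    intro j hj
    rw [hth2 j hj]
    exact div_le_div_of_nonneg_left hL0.le hv0 (hGV j hj)
  have hth0 : ∀ j, 0 ≤ th j := fun j => Real.sqrt_nonneg _
  have hsum : ∀ j ∈ G, ∑ p ∈ S, t j p ^ 2 = L := by
    intro j hj
    have h1 : ∀ p ∈ S, t j p ^ 2 = th j ^ 2 * a p j ^ 2 := by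
      intro p _
      have : t j p ^ 2 = th j ^ 2 * s j ^ 2 * a p j ^ 2 := by rw [ht]; ring
      rw [this, hs, mul_one]
    rw [Finset.sum_congr rfl h1, ← Finset.mul_sum, hth2 j hj]
    have h2 : V j ≠ 0 := by have := hGV j hj; linarith [this, hv0]
    exact div_mul_cancel₀ L h2
  have htab2 : ∀ j ∈ G, ∀ p ∈ S, r * t j p ^ 2 ≤ 1 / 4 := by
    intro j hj p hp
    have h2 : t j p ^ 2 = th j ^ 2 * a p j ^ 2 := by
      have : t j p ^ 2 = th j ^ 2 * s j ^ 2 * a p j ^ 2 := by rw [ht]; ring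
      rw [this, hs, mul_one]
    have h3 : a p j ^ 2 ≤ K ^ 2 := by
      rw [← sq_abs]
      exact pow_le_pow_left₀ (abs_nonneg _) (ha p hp j) 2
    have h4 : t j p ^ 2 ≤ L / v0 * K ^ 2 := by
      rw [h2]
      exact mul_le_mul (hth3 j hj) h3 (sq_nonneg _) (by positivity)
    calc r * t j p ^ 2 ≤ r * (L / v0 * K ^ 2) := mul_le_mul_of_nonneg_left h4 (by linarith)
      _ = (r * (L * K ^ 2)) / v0 := by ring
      _ ≤ 1 / 4 := by rw [div_le_iff₀ hv0]; linarith
  have htab : ∀ j ∈ G, ∀ p ∈ S, |t j p| ≤ 1 / 2 := by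
    intro j hj p hp
    have h1 : |t j p| ^ 2 ≤ (1 / 2) ^ 2 := by
      rw [sq_abs]
      have h2 := htab2 j hj p hp
      nlinarith [sq_nonneg (t j p)]
    exact (pow_le_pow_iff_left₀ (abs_nonneg _) (by norm_num) (by norm_num)).1 h1
  set w : Finset ℕ → ℕ → ℝ := fun T j => ∏ p ∈ S, (1 + sg T p * t j p) with hw
  set Z : Finset ℕ → ℝ := fun T => ∑ j ∈ G, w T j with hZ
  set c : ℕ → ℕ → ℝ := fun i j => ∑ p ∈ S, t i p * t j p with hc
  have hcL : ∀ i ∈ G, ∀ j ∈ G, c i j ≤ L := by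
    intro i hi j hj
    have h1 : c i j ≤ ∑ p ∈ S, (t i p ^ 2 + t j p ^ 2) / 2 := by
      refine Finset.sum_le_sum fun p _ => ?_
      nlinarith [sq_nonneg (t i p - t j p)]
    rw [← Finset.sum_div, Finset.sum_add_distrib, hsum i hi, hsum j hj] at h1
    linarith
  have hprod : ∀ i ∈ G, ∀ j ∈ G, ∏ p ∈ S, (1 + r * (t i p * t j p)) ≤
      1 + r * c i j + (r * c i j) ^ 2 * Real.exp (r * L) := by
    intro i hi j hj
    have hr0 : 0 ≤ r := by linarith
    refine le_trans ?_ (exp_le_quad (mul_le_mul_of_nonneg_left (hcL i hi j hj) hr0) (mul_nonneg hr0 hL0.le))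
    rw [hc, Finset.mul_sum, Real.exp_sum]
    refine Finset.prod_le_prod (fun p hp => ?_) fun p _ => ?_
    · have h1 := htab2 i hi p hp
      have h2 := htab2 j hj p hp
      nlinarith [mul_nonneg hr0 (sq_nonneg (t i p + t j p))]
    · have := Real.add_one_le_exp (r * (t i p * t j p))
      linarith
  set M : ℝ := J * K / 2 with hM
  have hM0 : 0 ≤ M := by positivity
  have hS1 : ∑ i ∈ G, ∑ j ∈ G, c i j ≤ M * (L / v0) * G.card := by
    have h1 : ∑ i ∈ G, ∑ j ∈ G, c i j = ∑ p ∈ S, (∑ j ∈ G, (th j * s j) * a p j) ^ 2 := by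
      have h2 : ∀ p ∈ S, (∑ j ∈ G, (th j * s j) * a p j) ^ 2 = ∑ i ∈ G, ∑ j ∈ G, t i p * t j p := by
        intro p _
        rw [sq, Finset.sum_mul_sum]
      rw [Finset.sum_congr rfl h2]
      symm
      rw [Finset.sum_comm]
      refine Finset.sum_congr rfl fun i _ => ?_
      rw [Finset.sum_comm]
    rw [h1]
    refine (bessel hM0 ho hn hGJ (fun j => th j * s j)).trans ?_
    have h3 : ∑ j ∈ G, (th j * s j) ^ 2 ≤ ∑ _j ∈ G, L / v0 := by
      refine Finset.sum_le_sum fun j hj => ?_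
      rw [mul_pow, hs, mul_one]
      exact hth3 j hj
    rw [Finset.sum_const, nsmul_eq_mul] at h3
    have := mul_le_mul_of_nonneg_left h3 hM0
    linarith
  have hS2 : ∑ i ∈ G, ∑ j ∈ G, c i j ^ 2 ≤ M * (L / v0) * L * G.card := by
    have h1 : ∀ i ∈ G, ∑ j ∈ G, c i j ^ 2 ≤ M * (L / v0) * L := by
      intro i hi
      have h2 : ∀ j ∈ G, c i j ^ 2 ≤ L / v0 * (∑ p ∈ S, t i p * a p j) ^ 2 := by
        intro j hj
        have h3 : c i j = th j * s j * ∑ p ∈ S, t i p * a p j := by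
          rw [hc, Finset.mul_sum]
          exact Finset.sum_congr rfl fun p _ => by rw [ht]; ring
        rw [h3, mul_pow, mul_pow, hs, mul_one]
        exact mul_le_mul_of_nonneg_right (hth3 j hj) (sq_nonneg _)
      refine (Finset.sum_le_sum h2).trans ?_
      rw [← Finset.mul_sum]
      have h4 : ∑ j ∈ G, (∑ p ∈ S, t i p * a p j) ^ 2 ≤ M * L := by
        refine (Finset.sum_le_sum_of_subset_of_nonneg hGJ fun _ _ _ => sq_nonneg _).trans ?_
        refine (sq_norm ho hn (t i)).trans ?_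
        rw [hsum i hi]
      have h5 : 0 ≤ L / v0 := by positivity
      have := mul_le_mul_of_nonneg_left h4 h5
      linarith
    refine (Finset.sum_le_sum h1).trans ?_
    rw [Finset.sum_const, nsmul_eq_mul]
    linarith
  set z : Finset ℕ → ℝ := fun U => ∑ j ∈ G, ∏ p ∈ U, t j p with hz
  have hz0 : z ∅ = G.card := by
    rw [hz]; simp
  have hZe : ∀ T, Z T - G.card = ∑ U ∈ S.powerset, (if U = ∅ then 0 else z U) * wal T U := by
    intro T
    have h1 : Z T = ∑ U ∈ S.powerset, z U * wal T U := by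
      rw [hZ]
      simp only [hw, riesz_expand]
      rw [Finset.sum_comm]
      refine Finset.sum_congr rfl fun U _ => ?_
      rw [hz, Finset.sum_mul]
      exact Finset.sum_congr rfl fun j _ => mul_comm _ _
    have h2 : ∑ U ∈ S.powerset, z U * wal T U - ∑ U ∈ S.powerset, (if U = ∅ then 0 else z U) * wal T U = G.card := by
      rw [← Finset.sum_sub_distrib, Finset.sum_eq_single_of_mem ∅ (Finset.empty_mem_powerset S)]
      · rw [if_pos rfl, wal_empty, hz0]; ring
      · intro U _ hU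
        rw [if_neg hU]; ring
    linarith
  have hE : ∑ U ∈ S.powerset, r ^ U.card * (if U = ∅ then 0 else z U) ^ 2 ≤
      M * (L / v0) * r * (1 + r * L * Real.exp (r * L)) * G.card := by
    have hr0 : 0 ≤ r := by linarith
    have h1 : ∑ U ∈ S.powerset, r ^ U.card * z U ^ 2 = ∑ i ∈ G, ∑ j ∈ G, ∏ p ∈ S, (1 + r * (t i p * t j p)) := by
      have h2 : ∀ U ∈ S.powerset, r ^ U.card * z U ^ 2 = ∑ i ∈ G, ∑ j ∈ G, ∏ p ∈ U, (r * (t i p * t j p)) := by
        intro U _
        rw [sq, hz, Finset.sum_mul_sum, Finset.mul_sum]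
        refine Finset.sum_congr rfl fun i _ => ?_
        rw [Finset.mul_sum]
        refine Finset.sum_congr rfl fun j _ => ?_
        have h3 : ∏ p ∈ U, (r * (t i p * t j p)) = r ^ U.card * ((∏ p ∈ U, t i p) * ∏ p ∈ U, t j p) := by
          rw [Finset.prod_mul_distrib, Finset.prod_const, Finset.prod_mul_distrib]
        rw [h3]
      rw [Finset.sum_congr rfl h2, Finset.sum_comm]
      refine Finset.sum_congr rfl fun i _ => ?_
      rw [Finset.sum_comm]
      refine Finset.sum_congr rfl fun j _ => ?_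
      rw [Finset.prod_one_add]
    have h3 : ∑ U ∈ S.powerset, r ^ U.card * z U ^ 2 -
        ∑ U ∈ S.powerset, r ^ U.card * (if U = ∅ then 0 else z U) ^ 2 = (G.card : ℝ) ^ 2 := by
      rw [← Finset.sum_sub_distrib, Finset.sum_eq_single_of_mem ∅ (Finset.empty_mem_powerset S)]
      · rw [if_pos rfl, hz0, Finset.card_empty]; ring
      · intro U _ hU
        rw [if_neg hU]; ring
    have h4 : ∑ i ∈ G, ∑ j ∈ G, ∏ p ∈ S, (1 + r * (t i p * t j p)) ≤
        ∑ i ∈ G, ∑ j ∈ G, (1 + r * c i j + (r * c i j) ^ 2 * Real.exp (r * L)) :=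
      Finset.sum_le_sum fun i hi => Finset.sum_le_sum fun j hj => hprod i hi j hj
    have h5 : ∑ i ∈ G, ∑ j ∈ G, (1 + r * c i j + (r * c i j) ^ 2 * Real.exp (r * L)) =
        (G.card : ℝ) ^ 2 + r * ∑ i ∈ G, ∑ j ∈ G, c i j +
          (r ^ 2 * Real.exp (r * L)) * ∑ i ∈ G, ∑ j ∈ G, c i j ^ 2 := by
      have h6 : ∀ i ∈ G, ∑ j ∈ G, (1 + r * c i j + (r * c i j) ^ 2 * Real.exp (r * L)) =
          (G.card : ℝ) + r * ∑ j ∈ G, c i j + (r ^ 2 * Real.exp (r * L)) * ∑ j ∈ G, c i j ^ 2 := by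
        intro i _
        rw [Finset.sum_add_distrib, Finset.sum_add_distrib, Finset.sum_const, nsmul_eq_mul, mul_one,
          Finset.mul_sum, Finset.mul_sum]
        congr 1
        exact Finset.sum_congr rfl fun j _ => by ring
      rw [Finset.sum_congr rfl h6, Finset.sum_add_distrib, Finset.sum_add_distrib, Finset.sum_const, nsmul_eq_mul,
        ← Finset.mul_sum, ← Finset.mul_sum]
      ring
    have h7 := mul_le_mul_of_nonneg_left hS1 hr0
    have h8 := mul_le_mul_of_nonneg_left hS2 (show 0 ≤ r ^ 2 * Real.exp (r * L) by positivity)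
    have h9 : M * (L / v0) * r * (1 + r * L * Real.exp (r * L)) * G.card =
        r * (M * (L / v0) * G.card) + r ^ 2 * Real.exp (r * L) * (M * (L / v0) * L * G.card) := by ring
    rw [h9]
    rw [h1] at h3
    rw [h5] at h4
    linarith
  have hmom : av S (fun T => (Z T - G.card) ^ (2 * k)) ≤
      (M * (L / v0) * r * (1 + r * L * Real.exp (r * L)) * G.card) ^ k := by
    have h1 := hyper k hk S (fun U => (((if U = ∅ then 0 else z U) : ℝ) : ℂ))
    have h2 : (fun T => ‖∑ U ∈ S.powerset, (((if U = ∅ then 0 else z U) : ℝ) : ℂ) * (wal T U : ℂ)‖ ^ (2 * k)) =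
        fun T => (Z T - G.card) ^ (2 * k) := by
      funext T
      have h3 : ∑ U ∈ S.powerset, (((if U = ∅ then 0 else z U) : ℝ) : ℂ) * (wal T U : ℂ) =
          ((Z T - G.card : ℝ) : ℂ) := by
        rw [hZe T]
        push_cast
        rfl
      rw [h3, Complex.norm_real, Real.norm_eq_abs, pow_mul, sq_abs, ← pow_mul]
    rw [h2] at h1
    refine h1.trans ?_
    have h4 : ∑ U ∈ S.powerset, (2 * (k : ℝ) - 1) ^ U.card * ‖(((if U = ∅ then 0 else z U) : ℝ) : ℂ)‖ ^ 2 =
        ∑ U ∈ S.powerset, r ^ U.card * (if U = ∅ then 0 else z U) ^ 2 := by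
      refine Finset.sum_congr rfl fun U _ => ?_
      rw [Complex.norm_real, Real.norm_eq_abs, sq_abs, hr]
    rw [h4]
    refine pow_le_pow_left₀ (Finset.sum_nonneg fun U _ => ?_) hE k
    have hr0 : 0 ≤ r := by linarith
    positivity
  -- the event forces `Z ≤ G.card / 2`
  have hev : ∀ T, (∀ j ∈ I, s j * ∑ p ∈ S, sg T p * a p j < (L / 4 - Real.log 2) * Real.sqrt (v0 / L)) →
      Z T ≤ G.card / 2 := by
    intro T hT
    have h1 : ∀ j ∈ G, w T j ≤ 1 / 2 := by
      intro j hj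
      have h2 : w T j ≤ Real.exp (th j * (s j * ∑ p ∈ S, sg T p * a p j) - L / 4) := by
        have h3 : th j * (s j * ∑ p ∈ S, sg T p * a p j) - L / 4 =
            ∑ p ∈ S, (sg T p * t j p - (sg T p * t j p) ^ 2 / 4) := by
          have h4 : ∀ p ∈ S, sg T p * t j p - (sg T p * t j p) ^ 2 / 4 =
              th j * s j * (sg T p * a p j) - t j p ^ 2 / 4 := by
            intro p _
            rw [mul_pow, sg_sq, one_mul, ht]
            ring
          rw [Finset.sum_congr rfl h4, Finset.sum_sub_distrib, ← Finset.sum_div, hsum j hj, ← Finset.mul_sum]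
          ring
        rw [h3, Real.exp_sum]
        refine Finset.prod_le_prod (fun p hp => ?_) fun p hp => ?_
        · have h5 : |sg T p * t j p| ≤ 1 / 2 := by
            rw [abs_mul, abs_sg, one_mul]
            exact htab j hj p hp
          have := (abs_le.1 h5).1
          linarith
        · refine one_add_le_exp ?_
          rw [abs_mul, abs_sg, one_mul]
          exact htab j hj p hp
      refine h2.trans ?_
      have hj' : j ∈ I := (Finset.mem_filter.1 hj).1
      have h5 := hT j hj'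
      have hVj := hGV j hj
      have hVj0 : 0 < V j := by linarith
      have hthp : 0 < th j := Real.sqrt_pos.2 (div_pos hL0 hVj0)
      have h6 : th j * (s j * ∑ p ∈ S, sg T p * a p j) ≤ L / 4 - Real.log 2 := by
        have h7 : th j * Real.sqrt (v0 / L) ≤ 1 := by
          rw [hth, ← Real.sqrt_mul (by positivity)]
          rw [Real.sqrt_le_one]
          rw [div_mul_div_comm, div_le_one (by positivity)]
          nlinarith
        have h8 : 0 ≤ L / 4 - Real.log 2 := by linarith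
        calc th j * (s j * ∑ p ∈ S, sg T p * a p j)
            ≤ th j * ((L / 4 - Real.log 2) * Real.sqrt (v0 / L)) := mul_le_mul_of_nonneg_left h5.le hthp.le
          _ = (L / 4 - Real.log 2) * (th j * Real.sqrt (v0 / L)) := by ring
          _ ≤ (L / 4 - Real.log 2) * 1 := mul_le_mul_of_nonneg_left h7 h8
          _ = L / 4 - Real.log 2 := by ring
      have h9 : Real.exp (-Real.log 2) = 1 / 2 := by
        rw [Real.exp_neg, Real.exp_log (by norm_num)]
        norm_num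
      rw [← h9]
      exact Real.exp_le_exp.2 (by linarith)
    have h2 : Z T ≤ ∑ _j ∈ G, (1 / 2 : ℝ) := Finset.sum_le_sum h1
    rw [Finset.sum_const, nsmul_eq_mul] at h2
    linarith
  -- Markov
  have hmain : pr S (fun T => ∀ j ∈ I, s j * ∑ p ∈ S, sg T p * a p j <
      (L / 4 - Real.log 2) * Real.sqrt (v0 / L)) ≤
      (M * (L / v0) * r * (1 + r * L * Real.exp (r * L)) * G.card) ^ k / ((G.card : ℝ) ^ 2 / 4) ^ k := by
    refine (pr_mono (Q := fun T => ((G.card : ℝ) ^ 2 / 4) ^ k ≤ (Z T - G.card) ^ (2 * k)) fun T _ hT => ?_).trans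
      (markov (fun T _ => by rw [pow_mul]; positivity) (by positivity) hmom)
    have h1 := hev T hT
    rw [pow_mul]
    refine pow_le_pow_left₀ (by positivity) ?_ k
    nlinarith [sq_nonneg (Z T), h1, hGc]
  refine hmain.trans (le_of_eq ?_)
  rw [← div_pow]
  congr 1
  rw [hM]
  field_simp
  ring

end Pool.Agent.Helper11.RL
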