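import Pool.Agent.Helper11.RL.Defs

/-! Project RL+ (arcs of length `N^(-1 + 1/h)`), definitions. -/

set_option autoImplicit false

namespace Pool.Agent.Helper11.RL

open Finset Pool.Agent.Helper5.RM

/-- `⌊N ^ (1 / (60 h))⌋` -/
noncomputable def KK' (h N : ℕ) : ℕ := ⌊(N : ℝ) ^ (1 / (60 * h) : ℝ)⌋₊

/-- the number of grid points (of `4 N`) in a block -/
noncomputable def mm' (h N : ℕ) : ℕ := ⌊(N : ℝ) ^ (1 / h : ℝ) / 4⌋₊

/-- the conclusion of block H' -/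
def BlockStmt' (h : ℕ) (c : ℝ) (N0 : ℕ) : Prop := ∀ N : ℕ, N0 ≤ N → ∀ j0 : ℕ, j0 + mm' h N ≤ 4 * N →
  pr (PP N) (fun T => ∀ j ∈ Ico j0 (j0 + mm' h N),
    |CN N T ((j : ℝ) / (4 * N : ℕ))| < c * Real.sqrt (N * Real.log N)) ≤ 1 / (N : ℝ) ^ 3

end Pool.Agent.Helper11.RL
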