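import Pool.Agent.Helper11.RL.I
import Pool.Agent.Helper11.RL.Defs2

/-! Project RL+, block I': from one block of the grid to the almost sure theorem, arcs of length `N^(-1+1/h)`. -/

set_option autoImplicit false

namespace Pool.Agent.Helper11.RL

open Finset MeasureTheory ProbabilityTheory Pool.Agent.Helper5.RM

/-- the bad event at `N` -/
def Bad' (h : ℕ) (c : ℝ) (N : ℕ) (T : Finset ℕ) : Prop :=
  ∃ b : ℕ, (b + 1) * mm' h N ≤ 4 * N ∧ ∀ j ∈ Ico (b * mm' h N) (b * mm' h N + mm' h N),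
    |CN N T ((j : ℝ) / (4 * N : ℕ))| < c * Real.sqrt (N * Real.log N)

lemma mm'_le (h N : ℕ) : (mm' h N : ℝ) ≤ (N : ℝ) ^ (1 / h : ℝ) / 4 := Nat.floor_le (by positivity)

lemma mm'_pos {h N : ℕ} (hh : 1 ≤ h) (hN : 4 ^ h ≤ N) : 1 ≤ mm' h N := by
  unfold mm'
  apply Nat.le_floor
  have hh0 : (0 : ℝ) < h := by exact_mod_cast hh
  have h1 : (4 : ℝ) ≤ (N : ℝ) ^ (1 / h : ℝ) := by
    have h2 : (4 : ℝ) ^ h ≤ N := by exact_mod_cast hN
    have h3 : ((4 : ℝ) ^ h) ^ (1 / h : ℝ) ≤ (N : ℝ) ^ (1 / h : ℝ) :=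
      Real.rpow_le_rpow (by positivity) h2 (by positivity)
    rw [← Real.rpow_natCast 4 h, ← Real.rpow_mul (by norm_num), mul_one_div_cancel hh0.ne', Real.rpow_one] at h3
    exact h3
  push_cast
  linarith

lemma bad_pr' {h : ℕ} (hh : 1 ≤ h) {c : ℝ} {N0 : ℕ} (hb : BlockStmt' h c N0) {N : ℕ} (hN : N0 ≤ N)
    (hN4 : 4 ^ h ≤ N) : pr (PP N) (Bad' h c N) ≤ 4 * (1 / (N : ℝ) ^ 2) := by
  classical
  have hNpos : 0 < N := lt_of_lt_of_le (by positivity) hN4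
  have hNp : (0 : ℝ) < N := by exact_mod_cast hNpos
  have h1 : pr (PP N) (Bad' h c N) ≤ pr (PP N) (fun T => ∃ b ∈ range (4 * N),
      (b + 1) * mm' h N ≤ 4 * N ∧ ∀ j ∈ Ico (b * mm' h N) (b * mm' h N + mm' h N),
        |CN N T ((j : ℝ) / (4 * N : ℕ))| < c * Real.sqrt (N * Real.log N)) := by
    refine pr_mono fun T _ ⟨b, hb1, hb2⟩ => ⟨b, ?_, hb1, hb2⟩
    rw [Finset.mem_range]
    have h2 := mm'_pos hh hN4
    nlinarith
  refine h1.trans ((pr_exists _ _ _).trans ?_)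
  have h2 : ∀ b ∈ range (4 * N), pr (PP N) (fun T => (b + 1) * mm' h N ≤ 4 * N ∧
      ∀ j ∈ Ico (b * mm' h N) (b * mm' h N + mm' h N),
        |CN N T ((j : ℝ) / (4 * N : ℕ))| < c * Real.sqrt (N * Real.log N)) ≤ 1 / (N : ℝ) ^ 3 := by
    intro b _
    by_cases h3 : (b + 1) * mm' h N ≤ 4 * N
    · refine (pr_mono fun T _ h => h.2).trans (hb N hN (b * mm' h N) ?_)
      linarith [add_mul b 1 (mm' h N), one_mul (mm' h N)]
    · rw [pr_false _ fun T _ h => h3 h.1]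
      positivity
  refine (Finset.sum_le_sum h2).trans (le_of_eq ?_)
  rw [Finset.sum_const, Finset.card_range, nsmul_eq_mul]
  push_cast
  field_simp

/-- Block I' -/
theorem low_of_block' {h : ℕ} (hh : 1 ≤ h) {c : ℝ} {N0 : ℕ} (hb : BlockStmt' h c N0)
    {Ω : Type*} [MeasurableSpace Ω] (μ : Measure Ω)
    [IsProbabilityMeasure μ] (ε : Nat.Primes → Ω → ℝ) (hm : ∀ p, Measurable (ε p)) (hi : iIndepFun ε μ)
    (h2 : ∀ p, μ {ω | ε p ω = -1} = 1 / 2) (h1 : ∀ p, μ {ω | ε p ω = 1} = 1 / 2) :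
    ∀ᵐ ω ∂μ, ∃ N1 : ℕ, ∀ N : ℕ, N1 ≤ N → ∀ a : ℝ, ∃ x : ℝ, a ≤ x ∧ x ≤ a + (N : ℝ) ^ (-1 + 1 / h : ℝ) ∧
      c * Real.sqrt (N * Real.log N) ≤ ‖∑ n ∈ Finset.Icc 1 N, (rs (ext ε) ω n : ℂ) * e (n * x)‖ := by
  classical
  -- all values are signs
  have hsign : ∀ᵐ ω ∂μ, ∀ p, ε p ω = -1 ∨ ε p ω = 1 := by
    rw [ae_all_iff]
    intro p
    have hm1 : MeasurableSet {ω | ε p ω = -1} := hm p (measurableSet_singleton _)
    have hm2 : MeasurableSet {ω | ε p ω = 1} := hm p (measurableSet_singleton _)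
    have hd : Disjoint {ω | ε p ω = -1} {ω | ε p ω = 1} := by
      rw [Set.disjoint_left]
      intro ω ha hb
      have ha' : ε p ω = -1 := ha
      have hb' : ε p ω = 1 := hb
      rw [ha'] at hb'
      norm_num at hb'
    have hu : μ ({ω | ε p ω = -1} ∪ {ω | ε p ω = 1}) = 1 := by
      rw [measure_union hd hm2, h2 p, h1 p]
      exact ENNReal.add_halves 1
    have hu' := (mem_ae_iff_prob_eq_one (hm1.union hm2)).2 hu
    exact hu'
  -- the bad events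
  obtain ⟨q4, hq4⟩ : ∃ q4, q4 = 4 ^ h := ⟨_, rfl⟩
  obtain ⟨r0, hr0⟩ : ∃ r0, r0 = N0 + q4 := ⟨_, rfl⟩
  let s : ℕ → Set Ω := fun r =>
    {ω | Bad' h c (r + r0) ((PP (r + r0)).filter (fun p => ext ε p ω = -1))}
  have hs : ∀ r, μ (s r) ≤ ENNReal.ofReal (4 * (1 / ((r + r0 : ℕ) : ℝ) ^ 2)) := by
    intro r
    refine (meas_leP μ ε hm hi h2 (r + r0) (Bad' h c (r + r0))).trans ?_
    apply ENNReal.ofReal_le_ofReal
    exact bad_pr' hh hb (by omega) (by rw [← hq4]; omega)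
  have hsum : ∑' r, μ (s r) ≠ ⊤ := by
    have hsm : Summable (fun r : ℕ => 4 * (1 / ((r + r0 : ℕ) : ℝ) ^ 2)) := by
      have h3 : Summable (fun r : ℕ => 1 / (r : ℝ) ^ 2) := Real.summable_one_div_nat_pow.2 (by norm_num)
      exact ((summable_nat_add_iff r0).2 h3).mul_left 4
    exact ne_top_of_le_ne_top hsm.tsum_ofReal_ne_top (ENNReal.tsum_le_tsum hs)
  have hbc := ae_eventually_notMem hsum
  filter_upwards [hsign, hbc] with ω hω' hev
  have hω : ∀ p, ext ε p ω = -1 ∨ ext ε p ω = 1 := by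
    intro p
    unfold Pool.Agent.Helper5.RM.ext
    split_ifs with h
    · exact hω' _
    · right; rfl
  obtain ⟨r1, hr1⟩ := Filter.eventually_atTop.1 hev
  refine ⟨r1 + r0, fun N hN a => ?_⟩
  have hN4 : 4 ^ h ≤ N := by rw [← hq4]; omega
  have hNpos : 0 < N := lt_of_lt_of_le (by positivity) hN4
  have hNp : (0 : ℝ) < N := by exact_mod_cast hNpos
  have hN1 : (1 : ℝ) ≤ N := by exact_mod_cast hNpos
  have hmle := mm'_le h N
  have hmpos := mm'_pos hh hN4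
  have hh1 : (1 : ℝ) ≤ h := by exact_mod_cast hh
  have hmmJ : mm' h N ≤ 4 * N := by
    have h3 : (mm' h N : ℝ) ≤ 4 * N := by
      have h4 : (N : ℝ) ^ (1 / h : ℝ) ≤ (N : ℝ) ^ (1 : ℝ) :=
        Real.rpow_le_rpow_of_exponent_le hN1 (by rw [div_le_one (by linarith)]; exact hh1)
      rw [Real.rpow_one] at h4
      linarith
    exact_mod_cast h3
  have hW : 3 * (mm' h N : ℝ) ≤ (N : ℝ) ^ (-1 + 1 / h : ℝ) * ((4 * N : ℕ) : ℝ) := by
    have h3 : (N : ℝ) ^ (-1 + 1 / h : ℝ) * N = (N : ℝ) ^ (1 / h : ℝ) := by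
      have h4 : (N : ℝ) ^ (-1 + 1 / h : ℝ) * (N : ℝ) ^ (1 : ℝ) = (N : ℝ) ^ (1 / h : ℝ) := by
        rw [← Real.rpow_add hNp]; congr 1; ring
      rw [Real.rpow_one] at h4
      exact h4
    push_cast
    have h5 : (0 : ℝ) ≤ (N : ℝ) ^ (1 / h : ℝ) := by positivity
    nlinarith
  obtain ⟨b, z, hb1, hb2⟩ := window hmpos hmmJ a ((N : ℝ) ^ (-1 + 1 / h : ℝ)) hW
  have hgood : ¬ Bad' h c N ((PP N).filter (fun p => ext ε p ω = -1)) := by
    obtain ⟨r, hr⟩ : ∃ r, N = r + r0 := ⟨N - r0, by omega⟩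
    have h3 := hr1 r (by omega)
    rw [hr]
    exact h3
  unfold Bad' at hgood
  push Not at hgood
  obtain ⟨j, hj, hjc⟩ := hgood b hb1
  rw [Finset.mem_Ico] at hj
  have hx := hb2 j hj.1 (by have := hj.2; linarith [add_mul b 1 (mm' h N), one_mul (mm' h N)])
  refine ⟨(j : ℝ) / (4 * N : ℕ) + z, hx.1, hx.2, ?_⟩
  rw [AS_sum_eq (ext ε) ω hω N N le_rfl, SN_shift]
  exact hjc.trans (CN_le_SN N _ _)

end Pool.Agent.Helper11.RL
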