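import Pool.Agent.Helper11.RL.Defs

/-! Project RL, blocks B and C: averages over a union, averages of Riesz products. -/

set_option autoImplicit false

namespace Pool.Agent.Helper11.RL

open Finset Pool.Agent.Helper5.RM

theorem av_split {S0 S1 : Finset ℕ} (hd : Disjoint S0 S1) (F : Finset ℕ → ℝ) :
    av (S0 ∪ S1) F = av S0 (fun T0 => av S1 (fun T1 => F (T0 ∪ T1))) := by
  classical
  induction S1 using Finset.induction_on generalizing F with
  | empty => simp [av_empty]
  | insert q S hq ih =>
    have hd' : Disjoint S0 S := Disjoint.mono_right (Finset.subset_insert q S) hd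
    have hq0 : q ∉ S0 := fun h => Finset.disjoint_left.1 hd h (Finset.mem_insert_self q S)
    have hu : q ∉ S0 ∪ S := by simp [hq0, hq]
    rw [Finset.union_insert, av_insert hu, ih hd', ih hd']
    have h1 : (fun T0 => av (insert q S) (fun T1 => F (T0 ∪ T1))) =
        fun T0 => (1 / 2) * av S (fun T1 => F (T0 ∪ T1)) + (1 / 2) * av S (fun T1 => F (insert q (T0 ∪ T1))) := by
      funext T0
      rw [av_insert hq]
      simp only [Finset.union_insert]
      ring
    rw [h1, av_add, av_mul_left, av_mul_left]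
    ring

theorem pr_split_le {S0 S1 : Finset ℕ} (hd : Disjoint S0 S1) (Q : Finset ℕ → Prop) (b : ℝ)
    (h : ∀ T0 ⊆ S0, pr S1 (fun T1 => Q (T0 ∪ T1)) ≤ b) : pr (S0 ∪ S1) Q ≤ b := by
  classical
  unfold pr
  rw [av_split hd]
  refine (av_mono (G := fun _ => b) fun T0 hT0 => ?_).trans (av_const S0 b).le
  exact h T0 hT0

theorem av_riesz2 (S : Finset ℕ) (t u : ℕ → ℝ) :
    av S (fun T => (∏ p ∈ S, (1 + sg T p * t p)) * ∏ p ∈ S, (1 + sg T p * u p)) = ∏ p ∈ S, (1 + t p * u p) := by
  classical
  induction S using Finset.induction_on with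
  | empty => simp [av_empty]
  | insert q S hq ih =>
    rw [av_insert hq, Finset.prod_insert hq]
    have e1 : av S (fun T => (∏ p ∈ insert q S, (1 + sg T p * t p)) * ∏ p ∈ insert q S, (1 + sg T p * u p)) =
        ((1 + t q) * (1 + u q)) * av S (fun T => (∏ p ∈ S, (1 + sg T p * t p)) * ∏ p ∈ S, (1 + sg T p * u p)) := by
      rw [← av_mul_left]
      refine av_congr fun T hT => ?_
      rw [Finset.prod_insert hq, Finset.prod_insert hq, sg_not_mem (fun h => hq (hT h))]
      ring
    have e2 : av S (fun T => (∏ p ∈ insert q S, (1 + sg (insert q T) p * t p)) *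
        ∏ p ∈ insert q S, (1 + sg (insert q T) p * u p)) =
        ((1 - t q) * (1 - u q)) * av S (fun T => (∏ p ∈ S, (1 + sg T p * t p)) * ∏ p ∈ S, (1 + sg T p * u p)) := by
      rw [← av_mul_left]
      refine av_congr fun T hT => ?_
      rw [Finset.prod_insert hq, Finset.prod_insert hq, sg_mem (Finset.mem_insert_self q T)]
      have h1 : ∏ p ∈ S, (1 + sg (insert q T) p * t p) = ∏ p ∈ S, (1 + sg T p * t p) :=
        Finset.prod_congr rfl fun p hp => by rw [sg_insert_of_ne (ne_of_mem_of_not_mem hp hq)]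
      have h2 : ∏ p ∈ S, (1 + sg (insert q T) p * u p) = ∏ p ∈ S, (1 + sg T p * u p) :=
        Finset.prod_congr rfl fun p hp => by rw [sg_insert_of_ne (ne_of_mem_of_not_mem hp hq)]
      rw [h1, h2]
      ring
    rw [e1, e2, ih]
    ring

theorem av_riesz (S : Finset ℕ) (t : ℕ → ℝ) : av S (fun T => ∏ p ∈ S, (1 + sg T p * t p)) = 1 := by
  have h := av_riesz2 S t (fun _ => 0)
  simpa using h

end Pool.Agent.Helper11.RL
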