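import Pool.Agent.Helper11.RL.A
import Pool.Agent.Helper11.RL.G2
import Pool.Agent.Helper11.RL.I2
import Pool.Agent.Helper51.RL.F2
import Pool.Agent.Helper96.RL.Block2

/-! Project RL+: the lower bound of the random model on every arc of length `N^(-κ)`, `κ < 1`, for all large `N`. -/

set_option autoImplicit false

namespace Pool.Agent.Helper11.RL

open Finset MeasureTheory ProbabilityTheory Pool.Agent.Helper5.RM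

theorem almost_sure_low' (h : ℕ) (hh : 1 ≤ h) : ∃ c : ℝ, 0 < c ∧ ∀ {Ω : Type*} [MeasurableSpace Ω] (μ : Measure Ω)
    [IsProbabilityMeasure μ] (ε : Nat.Primes → Ω → ℝ) (_ : ∀ p, Measurable (ε p)) (_ : iIndepFun ε μ)
    (_ : ∀ p, μ {ω | ε p ω = -1} = 1 / 2) (_ : ∀ p, μ {ω | ε p ω = 1} = 1 / 2),
    ∀ᵐ ω ∂μ, ∃ N0 : ℕ, ∀ N : ℕ, N0 ≤ N → ∀ a : ℝ, ∃ x : ℝ, a ≤ x ∧ x ≤ a + (N : ℝ) ^ (-1 + 1 / h : ℝ) ∧
      c * Real.sqrt (N * Real.log N) ≤ ‖∑ n ∈ Finset.Icc 1 N, (rs (ext ε) ω n : ℂ) * e (n * x)‖ := by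
  obtain ⟨c, hc, N0, hb⟩ := block'_of (fun hK T0 T1 h0 h1 x => decomp hK T0 T1 h0 h1 x) h hh (nt' h hh)
    (fun S a J I hI s hs K v0 L hK hv0 hL ha hKL ho hn hG =>
      riesz_k S a J I hI s hs K v0 L hK hv0 hL (6 * h) (by omega) ha hKL ho hn hG)
  exact ⟨c, hc, fun μ _ ε hm hi h2 h1 => low_of_block' hh hb μ ε hm hi h2 h1⟩

/-- arcs of length `N ^ (-κ)` -/
theorem almost_sure_arc (κ : ℝ) (hκ : κ < 1) : ∃ c : ℝ, 0 < c ∧ ∀ {Ω : Type*} [MeasurableSpace Ω] (μ : Measure Ω)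
    [IsProbabilityMeasure μ] (ε : Nat.Primes → Ω → ℝ) (_ : ∀ p, Measurable (ε p)) (_ : iIndepFun ε μ)
    (_ : ∀ p, μ {ω | ε p ω = -1} = 1 / 2) (_ : ∀ p, μ {ω | ε p ω = 1} = 1 / 2),
    ∀ᵐ ω ∂μ, ∃ N0 : ℕ, ∀ N : ℕ, N0 ≤ N → ∀ a : ℝ, ∃ x : ℝ, a ≤ x ∧ x ≤ a + (N : ℝ) ^ (-κ) ∧
      c * Real.sqrt (N * Real.log N) ≤ ‖∑ n ∈ Finset.Icc 1 N, (rs (ext ε) ω n : ℂ) * e (n * x)‖ := by
  obtain ⟨h, hh⟩ := exists_nat_gt (1 / (1 - κ))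
  have h1κ : 0 < 1 - κ := by linarith
  have hh0 : (0 : ℝ) < h := lt_trans (by positivity) hh
  have hh1 : 1 ≤ h := by exact_mod_cast hh0
  have hle : (-1 + 1 / h : ℝ) ≤ -κ := by
    rw [div_lt_iff₀ h1κ] at hh
    have : 1 / (h : ℝ) ≤ 1 - κ := by
      rw [div_le_iff₀ hh0]
      linarith
    linarith
  obtain ⟨c, hc, H⟩ := almost_sure_low' h hh1
  refine ⟨c, hc, fun μ _ ε hm hi h2 h1 => ?_⟩
  filter_upwards [H μ ε hm hi h2 h1] with ω ⟨N0, hN0⟩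
  refine ⟨N0 + 1, fun N hN a => ?_⟩
  obtain ⟨x, hx1, hx2, hx3⟩ := hN0 N (by omega) a
  have hN1 : (1 : ℝ) ≤ N := by exact_mod_cast (by omega : 1 ≤ N)
  have h3 := Real.rpow_le_rpow_of_exponent_le hN1 hle
  exact ⟨x, hx1, by linarith, hx3⟩

end Pool.Agent.Helper11.RL
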