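import Pool.Agent.Helper11.RL.Defs

/-! Project RL, block A: the decomposition by the large prime factor. -/

set_option autoImplicit false

namespace Pool.Agent.Helper11.RL

open Finset Pool.Agent.Helper5.RM

private lemma mem_P1 {N K p : ℕ} : p ∈ P1 N K ↔ p.Prime ∧ 1 ≤ p ∧ p ≤ N ∧ N < K * p := by
  unfold P1 PP
  simp only [Finset.mem_filter, Finset.mem_Icc]
  tauto

private lemma div_lt_K {N K p m : ℕ} (hp : p ∈ P1 N K) (hm : m ∈ Icc 1 (N / p)) : m < K := by
  have h := mem_P1.1 hp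
  have h1 : m * p ≤ N := (Nat.le_div_iff_mul_le (by omega)).1 (Finset.mem_Icc.1 hm).2
  have h2 : m * p < K * p := lt_of_le_of_lt h1 h.2.2.2
  exact lt_of_mul_lt_mul_right h2 (Nat.zero_le p)

private lemma K_lt {N K p : ℕ} (hK : K * K ≤ N) (hp : p ∈ P1 N K) : K < p := by
  have h := mem_P1.1 hp
  have h1 : K * K < K * p := lt_of_le_of_lt hK h.2.2.2
  exact lt_of_mul_lt_mul_left h1 (Nat.zero_le K)

private lemma rf_congr {T T' : Finset ℕ} {n : ℕ} (h : ∀ q ∈ n.primeFactors, sg T q = sg T' q) : rf T n = rf T' n := by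
  unfold rf wal
  split_ifs
  · exact Finset.prod_congr rfl h
  · rfl

private lemma sg_union_left {T0 T1 : Finset ℕ} {q : ℕ} (h : q ∉ T1) : sg (T0 ∪ T1) q = sg T0 q := by
  unfold sg
  simp [h]

private lemma sg_union_right {T0 T1 : Finset ℕ} {q : ℕ} (h : q ∉ T0) : sg (T0 ∪ T1) q = sg T1 q := by
  unfold sg
  simp [h]

/-- the integers with a large prime factor, counted once -/
private lemma sum_large {N K : ℕ} (hK : K * K ≤ N) (g : ℕ → ℝ) :
    ∑ n ∈ (Icc 1 N).filter (fun n => ¬ ∀ p ∈ P1 N K, ¬ p ∣ n), g n =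
      ∑ p ∈ P1 N K, ∑ m ∈ Icc 1 (N / p), g (p * m) := by
  classical
  have h1 : (Icc 1 N).filter (fun n => ¬ ∀ p ∈ P1 N K, ¬ p ∣ n) =
      (P1 N K).biUnion (fun p => (Icc 1 (N / p)).image (fun m => p * m)) := by
    ext n
    simp only [Finset.mem_filter, Finset.mem_Icc, Finset.mem_biUnion, Finset.mem_image]
    constructor
    · rintro ⟨⟨hn1, hnN⟩, hn⟩
      push Not at hn
      obtain ⟨p, hp, m, rfl⟩ := hn
      have h := mem_P1.1 hp
      refine ⟨p, hp, m, ⟨?_, ?_⟩, rfl⟩
      · rcases Nat.eq_zero_or_pos m with h0 | h0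
        · subst h0; simp at hn1
        · exact h0
      · rw [Nat.le_div_iff_mul_le (by omega), mul_comm]
        exact hnN
    · rintro ⟨p, hp, m, ⟨hm1, hm2⟩, rfl⟩
      have h := mem_P1.1 hp
      have h2 : m * p ≤ N := (Nat.le_div_iff_mul_le (by omega)).1 hm2
      refine ⟨⟨Nat.mul_pos (by omega) (by omega), by rw [mul_comm]; exact h2⟩, ?_⟩
      push Not
      exact ⟨p, hp, dvd_mul_right p m⟩
  rw [h1, Finset.sum_biUnion]
  · refine Finset.sum_congr rfl fun p hp => ?_
    have h := mem_P1.1 hp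
    rw [Finset.sum_image]
    intro a _ b _ hab
    exact Nat.eq_of_mul_eq_mul_left (by omega) hab
  · intro p hp p' hp' hne
    rw [Function.onFun, Finset.disjoint_left]
    intro n hn hn'
    obtain ⟨m, hm, rfl⟩ := Finset.mem_image.1 hn
    obtain ⟨m', hm', he⟩ := Finset.mem_image.1 hn'
    have hpp : p ∈ P1 N K := hp
    have hpp' : p' ∈ P1 N K := hp'
    have h := mem_P1.1 hpp
    have h' := mem_P1.1 hpp'
    have hd : p ∣ p' * m' := by
      have he' : p' * m' = p * m := he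
      rw [he']
      exact dvd_mul_right p m
    rcases (Nat.Prime.dvd_mul h.1).1 hd with h2 | h2
    · exact hne ((Nat.prime_dvd_prime_iff_eq h.1 h'.1).1 h2)
    · have h3 := Nat.le_of_dvd (by have := (Finset.mem_Icc.1 hm').1; omega) h2
      have h4 := div_lt_K hpp' hm'
      have h5 := K_lt hK hpp
      omega

theorem decomp {N K : ℕ} (hK : K * K ≤ N) (T0 T1 : Finset ℕ) (h0 : T0 ⊆ PP N \ P1 N K) (h1 : T1 ⊆ P1 N K)
    (x : ℝ) : CN N (T0 ∪ T1) x = AN N K T0 x + ∑ p ∈ P1 N K, sg T1 p * ap N T0 p x := by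
  classical
  have hT0 : ∀ q ∈ P1 N K, q ∉ T0 := fun q hq h => (Finset.mem_sdiff.1 (h0 h)).2 hq
  unfold CN AN
  rw [← Finset.sum_filter_add_sum_filter_not (Icc 1 N) (fun n => ∀ p ∈ P1 N K, ¬ p ∣ n)]
  congr 1
  · refine Finset.sum_congr rfl fun n hn => ?_
    have h2 := (Finset.mem_filter.1 hn).2
    rw [rf_congr (T' := T0) fun q hq => sg_union_left fun h3 => h2 q (h1 h3) (Nat.dvd_of_mem_primeFactors hq)]
  · rw [sum_large hK (fun n => rf (T0 ∪ T1) n * Real.cos (2 * Real.pi * (n * x)))]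
    refine Finset.sum_congr rfl fun p hp => ?_
    have h := mem_P1.1 hp
    unfold ap
    rw [Finset.mul_sum]
    refine Finset.sum_congr rfl fun m hm => ?_
    have hmK := div_lt_K hp hm
    have hKp := K_lt hK hp
    have hm1 := (Finset.mem_Icc.1 hm).1
    have hcop : Nat.Coprime p m := by
      rw [Nat.Prime.coprime_iff_not_dvd h.1]
      intro hd
      have := Nat.le_of_dvd (by omega) hd
      omega
    have hp1 : rf (T0 ∪ T1) p = sg T1 p := by
      rw [rf_sqf h.1.prime.squarefree, h.1.primeFactors]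
      unfold wal
      rw [Finset.prod_singleton, sg_union_right (hT0 p hp)]
    have hm2 : rf (T0 ∪ T1) m = rf T0 m := by
      refine rf_congr fun q hq => sg_union_left fun h3 => ?_
      have h4 := K_lt hK (h1 h3)
      have h5 := Nat.le_of_mem_primeFactors hq
      omega
    rw [rf_mul hcop, hp1, hm2]
    ring

end Pool.Agent.Helper11.RL
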