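import Pool.Agent.Helper5.RM.ASP

/-!
# Project RL (MP_b6b996_nt): lower bound of the random model on every short arc, definitions

Blueprint: `/team-store/h11_RL.md`.
-/

set_option autoImplicit false

namespace Pool.Agent.Helper11.RL

open Finset Pool.Agent.Helper5.RM

/-- the large primes: `N / K < p ≤ N` -/
noncomputable def P1 (N K : ℕ) : Finset ℕ := (PP N).filter (fun p => N < K * p)

/-- the real part of the random exponential sum -/
noncomputable def CN (N : ℕ) (T : Finset ℕ) (x : ℝ) : ℝ :=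
  ∑ n ∈ Icc 1 N, rf T n * Real.cos (2 * Real.pi * (n * x))

/-- inner sums -/
noncomputable def ap (N : ℕ) (T : Finset ℕ) (p : ℕ) (x : ℝ) : ℝ :=
  ∑ m ∈ Icc 1 (N / p), rf T m * Real.cos (2 * Real.pi * ((p * m : ℕ) * x))

/-- the part without large primes -/
noncomputable def AN (N K : ℕ) (T : Finset ℕ) (x : ℝ) : ℝ :=
  ∑ n ∈ (Icc 1 N).filter (fun n => ∀ p ∈ P1 N K, ¬ p ∣ n), rf T n * Real.cos (2 * Real.pi * (n * x))

/-- number of squarefree `m ≤ y` -/
noncomputable def Qf (y : ℕ) : ℕ := ((Icc 1 y).filter Squarefree).card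

/-- `⌊N ^ (1 / 60)⌋` -/
noncomputable def KK (N : ℕ) : ℕ := ⌊(N : ℝ) ^ (1 / 60 : ℝ)⌋₊

/-- the number of grid points (of `4 N`) in a block -/
noncomputable def mm (N : ℕ) : ℕ := ⌊(N : ℝ) ^ (4 / 5 : ℝ) / 4⌋₊

end Pool.Agent.Helper11.RL
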