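import Pool.Agent.Helper11.RL.Defs

/-! Project RL, block I: from one block of the grid to the almost sure theorem. -/

set_option autoImplicit false

namespace Pool.Agent.Helper11.RL

open Finset MeasureTheory ProbabilityTheory Pool.Agent.Helper5.RM

/-- the real part -/
lemma CN_le_SN (N : ℕ) (T : Finset ℕ) (x : ℝ) : |CN N T x| ≤ ‖SN N T x‖ := by
  have h : CN N T x = (SN N T x).re := by
    unfold CN SN
    rw [Complex.re_sum]
    refine Finset.sum_congr rfl fun n _ => ?_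
    have h1 : (e (n * x)).re = Real.cos (2 * Real.pi * (n * x)) := by
      unfold e
      have h2 : (2 * Real.pi * (n * x : ℝ) * Complex.I : ℂ) = ((2 * Real.pi * (n * x) : ℝ) : ℂ) * Complex.I := by
        push_cast; ring
      rw [h2, Complex.exp_ofReal_mul_I_re]
    rw [Complex.re_ofReal_mul, h1]
  rw [h]
  exact Complex.abs_re_le_norm _

lemma SN_shift (N : ℕ) (T : Finset ℕ) (x : ℝ) (z : ℤ) : SN N T (x + z) = SN N T x := by
  unfold SN
  refine Finset.sum_congr rfl fun n _ => ?_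
  have h1 : (n : ℝ) * (x + z) = n * x + ((n * z : ℤ) : ℝ) := by push_cast; ring
  rw [h1, e_add, e_int, mul_one]

lemma SN_diff {N M : ℕ} (h : M ≤ N) (T : Finset ℕ) (x : ℝ) : ‖SN N T x - SN M T x‖ ≤ (N : ℝ) - M := by
  unfold SN
  have h1 : Icc 1 N = Icc 1 M ∪ Ioc M N := by
    ext n; simp only [Finset.mem_union, Finset.mem_Icc, Finset.mem_Ioc]; omega
  have h2 : Disjoint (Icc 1 M) (Ioc M N) := by
    rw [Finset.disjoint_left]; intro n; simp only [Finset.mem_Icc, Finset.mem_Ioc]; omega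
  rw [h1, Finset.sum_union h2, add_sub_cancel_left]
  refine (norm_sum_le _ _).trans ?_
  have : ∀ n ∈ Ioc M N, ‖(rf T n : ℂ) * e (n * x)‖ ≤ 1 := by
    intro n _
    rw [norm_mul, norm_e, mul_one, Complex.norm_real]
    exact abs_rf_le T n
  refine (Finset.sum_le_sum this).trans ?_
  rw [Finset.sum_const, nsmul_eq_mul, Nat.card_Ioc, mul_one]
  push_cast [h]
  exact le_rfl

/-- a full block in the window `[a, a + W / J]` -/
lemma window {J m : ℕ} (hm : 1 ≤ m) (hmJ : m ≤ J) (a W : ℝ) (hW : 3 * (m : ℝ) ≤ W * J) :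
    ∃ (b : ℕ) (z : ℤ), (b + 1) * m ≤ J ∧ ∀ j : ℕ, b * m ≤ j → j < (b + 1) * m →
      a ≤ (j : ℝ) / J + z ∧ (j : ℝ) / J + z ≤ a + W := by
  have hJ : (0 : ℝ) < J := by exact_mod_cast (by omega : 0 < J)
  have hm0 : (0 : ℝ) < m := by exact_mod_cast hm
  obtain ⟨u, hu⟩ : ∃ u : ℝ, u = (a - ⌊a⌋) * J := ⟨_, rfl⟩
  have hu0 : 0 ≤ u := by
    rw [hu]
    exact mul_nonneg (by linarith [Int.floor_le a]) hJ.le
  have huJ : u < J := by
    have h1 : a - ⌊a⌋ < 1 := by linarith [Int.lt_floor_add_one a]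
    calc u = (a - ⌊a⌋) * J := hu
      _ < 1 * J := mul_lt_mul_of_pos_right h1 hJ
      _ = J := one_mul _
  have ha : a = u / J + ⌊a⌋ := by
    rw [hu, mul_div_assoc, div_self hJ.ne', mul_one]; ring
  set b : ℕ := ⌈u / m⌉₊ with hb
  have hb1 : u ≤ b * m := by
    have := Nat.le_ceil (u / m)
    rw [div_le_iff₀ hm0] at this
    exact this
  have hb2 : (b : ℝ) * m < u + m := by
    have h1 := Nat.ceil_lt_add_one (div_nonneg hu0 hm0.le)
    have h2 : (b : ℝ) < u / m + 1 := h1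
    calc (b : ℝ) * m < (u / m + 1) * m := mul_lt_mul_of_pos_right h2 hm0
      _ = u + m := by field_simp
  obtain ⟨f, hf⟩ : ∃ f : ℤ, f = ⌊a⌋ := ⟨_, rfl⟩
  rw [← hf] at ha
  have hW2 : (u + W * J) / J = u / J + W := by field_simp
  by_cases hbJ : (b + 1) * m ≤ J
  · refine ⟨b, f, hbJ, fun j hj1 hj2 => ?_⟩
    have hj1' : (b : ℝ) * m ≤ j := by exact_mod_cast hj1
    have hj2' : (j : ℝ) < (b + 1) * m := by exact_mod_cast hj2
    have h1 : u / J ≤ j / J := div_le_div_of_nonneg_right (hb1.trans hj1') hJ.le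
    have h2 : (j : ℝ) / J ≤ (u + W * J) / J := div_le_div_of_nonneg_right (by nlinarith) hJ.le
    rw [hW2] at h2
    constructor <;> rw [ha] <;> linarith
  · refine ⟨0, f + 1, by omega, fun j hj1 hj2 => ?_⟩
    push Not at hbJ
    have hbJ' : (J : ℝ) < (b + 1) * m := by exact_mod_cast hbJ
    have hj2' : (j : ℝ) < m := by
      have : j < m := by omega
      exact_mod_cast this
    have hj0 : (0 : ℝ) ≤ j := Nat.cast_nonneg j
    have h1 : u / J ≤ 1 := by rw [div_le_one hJ]; exact huJ.le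
    have h3 : 0 ≤ (j : ℝ) / J := by positivity
    have h2 : ((j : ℝ) + J) / J ≤ (u + W * J) / J := div_le_div_of_nonneg_right (by nlinarith) hJ.le
    rw [hW2, add_div, div_self hJ.ne'] at h2
    push_cast
    constructor <;> rw [ha] <;> linarith

/-- the conclusion of block H -/
def BlockStmt (c : ℝ) (N0 : ℕ) : Prop := ∀ N : ℕ, N0 ≤ N → ∀ j0 : ℕ, j0 + mm N ≤ 4 * N →
  pr (PP N) (fun T => ∀ j ∈ Ico j0 (j0 + mm N),
    |CN N T ((j : ℝ) / (4 * N : ℕ))| < c * Real.sqrt (N * Real.log N)) ≤ (N : ℝ) ^ (-(36 / 50) : ℝ)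

/-- the bad event at `N` -/
def Bad (c : ℝ) (N : ℕ) (T : Finset ℕ) : Prop :=
  ∃ b : ℕ, (b + 1) * mm N ≤ 4 * N ∧ ∀ j ∈ Ico (b * mm N) (b * mm N + mm N),
    |CN N T ((j : ℝ) / (4 * N : ℕ))| < c * Real.sqrt (N * Real.log N)

lemma mm_le (N : ℕ) : (mm N : ℝ) ≤ (N : ℝ) ^ (4 / 5 : ℝ) / 4 := Nat.floor_le (by positivity)

lemma le_mm {N : ℕ} (hN : 14 ≤ N) : (N : ℝ) ^ (4 / 5 : ℝ) / 8 ≤ mm N := by
  have h1 : (8 : ℝ) ≤ (N : ℝ) ^ (4 / 5 : ℝ) := by
    have h2 : (14 : ℝ) ≤ N := by exact_mod_cast hN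
    have h4 : (8 : ℝ) ^ (5 : ℝ) ≤ ((N : ℝ) ^ (4 / 5 : ℝ)) ^ (5 : ℝ) := by
      rw [← Real.rpow_mul (by positivity)]
      have h5 : (14 : ℝ) ^ (4 : ℝ) ≤ (N : ℝ) ^ (4 : ℝ) := Real.rpow_le_rpow (by norm_num) h2 (by norm_num)
      have h6 : (4 / 5 : ℝ) * 5 = 4 := by norm_num
      rw [h6]
      refine le_trans ?_ h5
      norm_num
    exact (Real.rpow_le_rpow_iff (by norm_num) (by positivity) (by norm_num)).1 h4
  have h5 : (N : ℝ) ^ (4 / 5 : ℝ) / 4 < mm N + 1 := Nat.lt_floor_add_one _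
  linarith

lemma mm_pos {N : ℕ} (hN : 14 ≤ N) : 1 ≤ mm N := by
  have h := le_mm hN
  have h1 : (0 : ℝ) < (N : ℝ) ^ (4 / 5 : ℝ) / 8 := by
    have : (0 : ℝ) < N := by exact_mod_cast (by omega : 0 < N)
    positivity
  have h2 : (0 : ℝ) < mm N := lt_of_lt_of_le h1 h
  exact_mod_cast h2

lemma bad_pr {c : ℝ} {N0 : ℕ} (hb : BlockStmt c N0) {N : ℕ} (hN : N0 ≤ N) (hN6 : 14 ≤ N) :
    pr (PP N) (Bad c N) ≤ 32 * (N : ℝ) ^ (-(13 / 25) : ℝ) := by
  classical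
  have hNp : (0 : ℝ) < N := by exact_mod_cast (by omega : 0 < N)
  have h1 : pr (PP N) (Bad c N) ≤ pr (PP N) (fun T => ∃ b ∈ range (4 * N / mm N),
      (b + 1) * mm N ≤ 4 * N ∧ ∀ j ∈ Ico (b * mm N) (b * mm N + mm N),
        |CN N T ((j : ℝ) / (4 * N : ℕ))| < c * Real.sqrt (N * Real.log N)) := by
    refine pr_mono fun T _ ⟨b, hb1, hb2⟩ => ⟨b, ?_, hb1, hb2⟩
    rw [Finset.mem_range]
    exact (Nat.le_div_iff_mul_le (mm_pos hN6)).2 hb1
  refine h1.trans ((pr_exists _ _ _).trans ?_)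
  have h2 : ∀ b ∈ range (4 * N / mm N), pr (PP N) (fun T => (b + 1) * mm N ≤ 4 * N ∧
      ∀ j ∈ Ico (b * mm N) (b * mm N + mm N),
        |CN N T ((j : ℝ) / (4 * N : ℕ))| < c * Real.sqrt (N * Real.log N)) ≤ (N : ℝ) ^ (-(36 / 50) : ℝ) := by
    intro b _
    by_cases h3 : (b + 1) * mm N ≤ 4 * N
    · refine (pr_mono fun T _ h => h.2).trans (hb N hN (b * mm N) ?_)
      linarith [add_mul b 1 (mm N), one_mul (mm N)]
    · rw [pr_false _ fun T _ h => h3 h.1]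
      positivity
  refine (Finset.sum_le_sum h2).trans ?_
  rw [Finset.sum_const, Finset.card_range, nsmul_eq_mul]
  have h4 : ((4 * N / mm N : ℕ) : ℝ) ≤ 32 * (N : ℝ) ^ (1 / 5 : ℝ) := by
    have h5 : ((4 * N / mm N : ℕ) : ℝ) ≤ ((4 * N : ℕ) : ℝ) / mm N := Nat.cast_div_le
    refine h5.trans ?_
    have h6 : (0 : ℝ) < mm N := by exact_mod_cast mm_pos hN6
    rw [div_le_iff₀ h6]
    push_cast
    have h7 := mul_le_mul_of_nonneg_left (le_mm hN6) (show (0 : ℝ) ≤ 32 * (N : ℝ) ^ (1 / 5 : ℝ) by positivity)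
    refine le_trans (le_of_eq ?_) h7
    have h8 : (N : ℝ) ^ (1 / 5 : ℝ) * (N : ℝ) ^ (4 / 5 : ℝ) = N := by
      rw [← Real.rpow_add hNp]; norm_num
    linear_combination (-4 : ℝ) * h8
  calc ((4 * N / mm N : ℕ) : ℝ) * (N : ℝ) ^ (-(36 / 50) : ℝ)
      ≤ 32 * (N : ℝ) ^ (1 / 5 : ℝ) * (N : ℝ) ^ (-(36 / 50) : ℝ) :=
        mul_le_mul_of_nonneg_right h4 (by positivity)
    _ = 32 * (N : ℝ) ^ (-(13 / 25) : ℝ) := by
        rw [mul_assoc, ← Real.rpow_add hNp]; norm_num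

/-- Block I -/
theorem low_of_block {c : ℝ} (hc : 0 < c) {N0 : ℕ} (hb : BlockStmt c N0)
    {Ω : Type*} [MeasurableSpace Ω] (μ : Measure Ω)
    [IsProbabilityMeasure μ] (ε : Nat.Primes → Ω → ℝ) (hm : ∀ p, Measurable (ε p)) (hi : iIndepFun ε μ)
    (h2 : ∀ p, μ {ω | ε p ω = -1} = 1 / 2) (h1 : ∀ p, μ {ω | ε p ω = 1} = 1 / 2) :
    ∀ᵐ ω ∂μ, ∃ N1 : ℕ, ∀ N : ℕ, N1 ≤ N → ∀ a : ℝ, ∃ x : ℝ, a ≤ x ∧ x ≤ a + (N : ℝ) ^ (-(1 / 5) : ℝ) ∧
      c / 8 * Real.sqrt (N * Real.log N) ≤ ‖∑ n ∈ Finset.Icc 1 N, (rs (ext ε) ω n : ℂ) * e (n * x)‖ := by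
  classical
  -- all values are signs
  have hsign : ∀ᵐ ω ∂μ, ∀ p, ε p ω = -1 ∨ ε p ω = 1 := by
    rw [ae_all_iff]
    intro p
    have hm1 : MeasurableSet {ω | ε p ω = -1} := hm p (measurableSet_singleton _)
    have hm2 : MeasurableSet {ω | ε p ω = 1} := hm p (measurableSet_singleton _)
    have hd : Disjoint {ω | ε p ω = -1} {ω | ε p ω = 1} := by
      rw [Set.disjoint_left]
      intro ω ha hb
      have ha' : ε p ω = -1 := ha
      have hb' : ε p ω = 1 := hb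
      rw [ha'] at hb'
      norm_num at hb'
    have hu : μ ({ω | ε p ω = -1} ∪ {ω | ε p ω = 1}) = 1 := by
      rw [measure_union hd hm2, h2 p, h1 p]
      exact ENNReal.add_halves 1
    have hu' := (mem_ae_iff_prob_eq_one (hm1.union hm2)).2 hu
    exact hu'
  -- the bad events
  obtain ⟨r0, hr0⟩ : ∃ r0, r0 = N0 + 4 := ⟨_, rfl⟩
  let s : ℕ → Set Ω := fun r =>
    {ω | Bad c ((r + r0) ^ 2) ((PP ((r + r0) ^ 2)).filter (fun p => ext ε p ω = -1))}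
  have hs : ∀ r, μ (s r) ≤ ENNReal.ofReal (32 * ((r + r0 : ℕ) : ℝ) ^ (-(26 / 25) : ℝ)) := by
    intro r
    refine (meas_leP μ ε hm hi h2 ((r + r0) ^ 2) (Bad c ((r + r0) ^ 2))).trans ?_
    apply ENNReal.ofReal_le_ofReal
    have h3 : N0 ≤ (r + r0) ^ 2 :=
      calc N0 ≤ r + r0 := by omega
        _ ≤ (r + r0) ^ 2 := Nat.le_self_pow (by norm_num) _
    have h4 : 14 ≤ (r + r0) ^ 2 :=
      calc 14 ≤ 4 ^ 2 := by norm_num
        _ ≤ (r + r0) ^ 2 := Nat.pow_le_pow_left (by omega) 2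
    refine (bad_pr hb h3 h4).trans (le_of_eq ?_)
    congr 1
    push_cast
    rw [← Real.rpow_natCast _ 2, ← Real.rpow_mul (by positivity)]
    norm_num
  have hsum : ∑' r, μ (s r) ≠ ⊤ := by
    have hsm : Summable (fun r : ℕ => 32 * ((r + r0 : ℕ) : ℝ) ^ (-(26 / 25) : ℝ)) := by
      have h3 : Summable (fun r : ℕ => (r : ℝ) ^ (-(26 / 25) : ℝ)) :=
        Real.summable_nat_rpow.2 (by norm_num)
      exact ((summable_nat_add_iff r0).2 h3).mul_left 32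
    exact ne_top_of_le_ne_top hsm.tsum_ofReal_ne_top (ENNReal.tsum_le_tsum hs)
  have hbc := ae_eventually_notMem hsum
  filter_upwards [hsign, hbc] with ω hω' hev
  have hω : ∀ p, ext ε p ω = -1 ∨ ext ε p ω = 1 := by
    intro p
    unfold Pool.Agent.Helper5.RM.ext
    split_ifs with h
    · exact hω' _
    · right; rfl
  obtain ⟨r1, hr1⟩ := Filter.eventually_atTop.1 hev
  obtain ⟨k2, hk2⟩ : ∃ k2 : ℕ, ∀ k : ℕ, k2 ≤ k → 4 / c ≤ Real.sqrt (Real.log k) := by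
    have h3 : Filter.Tendsto (fun k : ℕ => Real.sqrt (Real.log k)) Filter.atTop Filter.atTop :=
      Real.tendsto_sqrt_atTop.comp (Real.tendsto_log_atTop.comp tendsto_natCast_atTop_atTop)
    exact Filter.eventually_atTop.1 (h3.eventually_ge_atTop (4 / c))
  refine ⟨(r1 + r0 + k2 + 3) ^ 2, fun N hN a => ?_⟩
  obtain ⟨k, hk⟩ : ∃ k, k = Nat.sqrt N := ⟨_, rfl⟩
  have hk1 : k ^ 2 ≤ N := by rw [hk, sq]; exact Nat.sqrt_le N
  have hk3 : N < (k + 1) ^ 2 := by rw [hk, sq]; exact Nat.lt_succ_sqrt N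
  have hkr : r1 + r0 + k2 + 3 ≤ k := by
    rw [hk, Nat.le_sqrt, ← sq]; exact hN
  have hk0 : (3 : ℝ) ≤ k := by exact_mod_cast (by omega : 3 ≤ k)
  obtain ⟨n, hn⟩ : ∃ n, n = k ^ 2 := ⟨_, rfl⟩
  have hn6 : 14 ≤ n := by
    rw [hn]
    calc 14 ≤ 4 ^ 2 := by norm_num
      _ ≤ k ^ 2 := Nat.pow_le_pow_left (by omega) 2
  have hn0 : (0 : ℝ) < n := by exact_mod_cast (by omega : 0 < n)
  have hNk : (N : ℝ) ≤ 4 * n := by
    have h3 : N ≤ 4 * n := by rw [hn]; nlinarith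
    exact_mod_cast h3
  have hN0' : (0 : ℝ) < N := by exact_mod_cast (by rw [← hn] at hk1; omega : 0 < N)
  have hmle := mm_le n
  have hmmJ : mm n ≤ 4 * n := by
    have h3 : (mm n : ℝ) ≤ 4 * n := by
      have h4 : (n : ℝ) ^ (4 / 5 : ℝ) ≤ (n : ℝ) ^ (1 : ℝ) :=
        Real.rpow_le_rpow_of_exponent_le (by exact_mod_cast (by omega : 1 ≤ n)) (by norm_num)
      rw [Real.rpow_one] at h4
      linarith
    exact_mod_cast h3
  have hW : 3 * (mm n : ℝ) ≤ (N : ℝ) ^ (-(1 / 5) : ℝ) * ((4 * n : ℕ) : ℝ) := by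
    have h3 : (4 * (n : ℝ)) ^ (-(1 / 5) : ℝ) ≤ (N : ℝ) ^ (-(1 / 5) : ℝ) :=
      Real.rpow_le_rpow_of_nonpos hN0' hNk (by norm_num)
    have h4 : (4 * (n : ℝ)) ^ (-(1 / 5) : ℝ) = (4 : ℝ) ^ (-(1 / 5) : ℝ) * (n : ℝ) ^ (-(1 / 5) : ℝ) :=
      Real.mul_rpow (by norm_num) hn0.le
    have h5 : (1 / 2 : ℝ) ≤ (4 : ℝ) ^ (-(1 / 5) : ℝ) := by
      have h6 : (1 / 2 : ℝ) = (4 : ℝ) ^ (-(1 / 2) : ℝ) := by
        rw [show (4 : ℝ) = 2 ^ (2 : ℝ) by norm_num, ← Real.rpow_mul (by norm_num)]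
        norm_num [Real.rpow_neg_one]
      rw [h6]
      exact Real.rpow_le_rpow_of_exponent_le (by norm_num) (by norm_num)
    have h7 : (n : ℝ) ^ (-(1 / 5) : ℝ) * n = (n : ℝ) ^ (4 / 5 : ℝ) := by
      have h8 : (n : ℝ) ^ (-(1 / 5) : ℝ) * (n : ℝ) ^ (1 : ℝ) = (n : ℝ) ^ (4 / 5 : ℝ) := by
        rw [← Real.rpow_add hn0]; norm_num
      rw [Real.rpow_one] at h8
      exact h8
    have h9 : 0 < (n : ℝ) ^ (-(1 / 5) : ℝ) := by positivity
    push_cast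
    have h10 : (1 / 2 : ℝ) * (n : ℝ) ^ (-(1 / 5) : ℝ) ≤ (N : ℝ) ^ (-(1 / 5) : ℝ) := by
      refine le_trans ?_ h3
      rw [h4]
      exact mul_le_mul_of_nonneg_right h5 h9.le
    have h11 := mul_le_mul_of_nonneg_right h10 (show (0 : ℝ) ≤ 4 * n by positivity)
    have h12 : (0 : ℝ) ≤ (n : ℝ) ^ (4 / 5 : ℝ) := by positivity
    nlinarith
  obtain ⟨b, z, hb1, hb2⟩ := window (mm_pos hn6) hmmJ a ((N : ℝ) ^ (-(1 / 5) : ℝ)) hW
  have hgood : ¬ Bad c n ((PP n).filter (fun p => ext ε p ω = -1)) := by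
    obtain ⟨r, hr⟩ : ∃ r, k = r + r0 := ⟨k - r0, by omega⟩
    have h3 := hr1 r (by omega)
    rw [hn, hr]
    exact h3
  unfold Bad at hgood
  push Not at hgood
  obtain ⟨j, hj, hjc⟩ := hgood b hb1
  rw [Finset.mem_Ico] at hj
  have hx := hb2 j hj.1 (by have := hj.2; linarith [add_mul b 1 (mm n), one_mul (mm n)])
  refine ⟨(j : ℝ) / (4 * n : ℕ) + z, hx.1, hx.2, ?_⟩
  rw [AS_sum_eq (ext ε) ω hω N N le_rfl]
  have hT : SN n ((PP N).filter (fun p => ext ε p ω = -1)) ((j : ℝ) / (4 * n : ℕ) + z) =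
      SN n ((PP n).filter (fun p => ext ε p ω = -1)) ((j : ℝ) / (4 * n : ℕ) + z) := by
    rw [← AS_sum_eq (ext ε) ω hω N n (by rw [hn]; exact hk1), ← AS_sum_eq (ext ε) ω hω n n le_rfl]
  have hd := SN_diff (by rw [hn]; exact hk1 : n ≤ N) ((PP N).filter (fun p => ext ε p ω = -1))
    ((j : ℝ) / (4 * n : ℕ) + z)
  rw [hT, SN_shift n] at hd
  have h3 := CN_le_SN n ((PP n).filter (fun p => ext ε p ω = -1)) ((j : ℝ) / (4 * n : ℕ))
  have h4 := norm_sub_norm_le (SN n ((PP n).filter (fun p => ext ε p ω = -1)) ((j : ℝ) / (4 * n : ℕ)))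
    (SN N ((PP N).filter (fun p => ext ε p ω = -1)) ((j : ℝ) / (4 * n : ℕ) + z))
  rw [norm_sub_rev] at h4
  have h5 : (N : ℝ) - n ≤ 2 * k := by
    have h6 : N ≤ n + 2 * k := by rw [hn]; nlinarith
    have h7 : (N : ℝ) ≤ n + 2 * k := by exact_mod_cast h6
    linarith
  -- numerics
  have hlk : 0 < Real.log k := Real.log_pos (by linarith)
  set l : ℝ := Real.sqrt (Real.log k) with hl
  have hl0 : 0 < l := Real.sqrt_pos.2 hlk
  have hlc : 4 ≤ c * l := by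
    have h8 := hk2 k (by omega)
    rw [div_le_iff₀ hc] at h8
    linarith
  have h9 : (k : ℝ) * l ≤ Real.sqrt (n * Real.log n) := by
    apply Real.le_sqrt_of_sq_le
    rw [mul_pow, hl, Real.sq_sqrt hlk.le, hn]
    push_cast
    rw [Real.log_pow]
    push_cast
    nlinarith [mul_pos (pow_pos (by linarith : (0 : ℝ) < k) 2) hlk]
  have h10 : Real.sqrt (N * Real.log N) ≤ 4 * k * l := by
    rw [Real.sqrt_le_left (by positivity)]
    have h11 : Real.log N ≤ 4 * Real.log k := by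
      have h12 : (N : ℝ) ≤ (k : ℝ) ^ 4 := by
        refine hNk.trans ?_
        rw [hn]
        push_cast
        nlinarith [sq_nonneg ((k : ℝ) ^ 2), sq_nonneg (k : ℝ), mul_nonneg (sq_nonneg (k : ℝ)) (by nlinarith : (0 : ℝ) ≤ (k : ℝ) ^ 2 - 4)]
      have h13 := Real.log_le_log hN0' h12
      rw [Real.log_pow] at h13
      push_cast at h13
      exact h13
    have h14 : (4 * (k : ℝ) * l) ^ 2 = 4 * (k : ℝ) ^ 2 * (4 * Real.log k) := by
      rw [mul_pow, mul_pow, hl, Real.sq_sqrt hlk.le]; ring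
    rw [h14]
    have h15 : (N : ℝ) ≤ 4 * (k : ℝ) ^ 2 := by
      rw [hn] at hNk; push_cast at hNk; exact hNk
    have h16 : 0 ≤ Real.log N := Real.log_nonneg (by
      have : 1 ≤ N := by rw [← hn] at hk1; omega
      exact_mod_cast this)
    exact mul_le_mul h15 h11 h16 (by positivity)
  have h17 : c * ((k : ℝ) * l) ≤ c * Real.sqrt (n * Real.log n) := mul_le_mul_of_nonneg_left h9 hc.le
  have h18 : c / 8 * Real.sqrt (N * Real.log N) ≤ c / 8 * (4 * k * l) :=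
    mul_le_mul_of_nonneg_left h10 (by positivity)
  have h19 : 4 * (k : ℝ) ≤ c * l * k := mul_le_mul_of_nonneg_right hlc (by linarith)
  nlinarith [h3, h4, h5, hd, hjc, h17, h18, h19]

end Pool.Agent.Helper11.RL
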