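import Pool.Agent.Helper11.RL.BC

/-! Project RL, block G: the second moment of a sum of Riesz products. -/

set_option autoImplicit false

namespace Pool.Agent.Helper11.RL

open Finset Pool.Agent.Helper5.RM

lemma exp_le_quad {c L : ℝ} (hc : c ≤ L) (hL : 0 ≤ L) : Real.exp c ≤ 1 + c + c ^ 2 * Real.exp L := by
  have hE : 1 ≤ Real.exp L := Real.one_le_exp hL
  rcases le_total 0 c with h | h
  · -- `(1 + c) (1 - c) ≤ (1 + c) e^{-c}`
    have h1 : 1 - c ≤ Real.exp (-c) := by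
      have := Real.add_one_le_exp (-c)
      linarith
    have h2 : Real.exp (-c) * Real.exp c = 1 := by rw [← Real.exp_add]; simp
    have h3 : Real.exp c ≤ Real.exp L := Real.exp_le_exp.2 hc
    have hpos := Real.exp_pos c
    have h4 : (1 + c) * (1 - c) * Real.exp c ≤ (1 + c) * (Real.exp (-c) * Real.exp c) := by
      have := mul_le_mul_of_nonneg_right h1 hpos.le
      nlinarith
    rw [h2] at h4
    nlinarith [sq_nonneg c, mul_le_mul_of_nonneg_left h3 (sq_nonneg c)]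
  · have h1 := Real.quadratic_le_exp_of_nonneg (x := -c) (by linarith)
    have h2 : Real.exp (-c) * Real.exp c = 1 := by rw [← Real.exp_add]; simp
    have hpos := Real.exp_pos c
    have h3 : (1 + -c + (-c) ^ 2 / 2) * Real.exp c ≤ 1 :=
      (mul_le_mul_of_nonneg_right h1 hpos.le).trans h2.le
    have h4 : 1 ≤ (1 + c + c ^ 2) * (1 + -c + (-c) ^ 2 / 2) := by
      nlinarith [sq_nonneg c, mul_nonneg (sq_nonneg c) (neg_nonneg.2 h), mul_nonneg (sq_nonneg c) (sq_nonneg c)]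
    have h5 : 0 < 1 + -c + (-c) ^ 2 / 2 := by nlinarith [sq_nonneg c]
    have h6 : 0 ≤ 1 + c + c ^ 2 := by nlinarith [sq_nonneg (c + 1 / 2)]
    have h7 : Real.exp c ≤ 1 + c + c ^ 2 := by
      have h8 : Real.exp c ≤ (1 + c + c ^ 2) * ((1 + -c + (-c) ^ 2 / 2) * Real.exp c) := by
        have := mul_le_mul_of_nonneg_right h4 hpos.le
        linarith [this]
      exact h8.trans (mul_le_of_le_one_right h6 h3)
    nlinarith [sq_nonneg c, mul_le_mul_of_nonneg_left hE (sq_nonneg c)]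

lemma one_add_le_exp {u : ℝ} (hu : |u| ≤ 1 / 2) : 1 + u ≤ Real.exp (u - u ^ 2 / 4) := by
  have h0 := abs_le.1 hu
  have h1 : 0 < 1 + u := by linarith [h0.1]
  -- `e^v ≥ 1 + v + v^2/2 + ..`; use `exp (-(u - u^2/4)) ≤ 1/(1+u)` through `exp`
  rcases le_total 0 u with h | h
  · have hv : 0 ≤ u - u ^ 2 / 4 := by nlinarith [h0.2]
    have h2 := Real.quadratic_le_exp_of_nonneg hv
    refine le_trans ?_ h2
    nlinarith [mul_nonneg h (sq_nonneg u), h0.2, mul_nonneg h h, mul_nonneg (mul_nonneg h h) h,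
      mul_nonneg (sq_nonneg u) (sub_nonneg.2 h0.2)]
  · -- `v = -u ≥ 0`: `(1 - v) e^(v + v^2/4) ≤ 1`
    obtain ⟨v, rfl⟩ : ∃ v, u = -v := ⟨-u, by ring⟩
    have hv0 : 0 ≤ v := by linarith
    have hv1 : v ≤ 1 / 2 := by linarith [h0.1]
    have h2 : Real.log (1 - v) ≤ -v - v ^ 2 / 4 := by
      have h3 : 0 ≤ v := hv0
      have h4 : v < 1 := by linarith
      have h5 := sum_le_hasSum (Finset.range 2) (fun i _ => by positivity)
        (Real.hasSum_pow_div_log_of_abs_lt_one (x := v) (by rw [abs_of_nonneg h3]; exact h4))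
      rw [Finset.sum_range_succ, Finset.sum_range_succ, Finset.sum_range_zero] at h5
      norm_num at h5
      nlinarith [sq_nonneg v]
    have h8 : Real.exp (Real.log (1 - v)) = 1 - v := Real.exp_log (by linarith)
    have h9 : 1 + -v = 1 - v := by ring
    rw [h9, ← h8]
    apply Real.exp_le_exp.2
    nlinarith [h2]

lemma sq_norm {S : Finset ℕ} {a : ℕ → ℕ → ℝ} {J : ℕ} {M : ℝ}
    (ho : ∀ p ∈ S, ∀ p' ∈ S, p ≠ p' → ∑ j ∈ range J, a p j * a p' j = 0)
    (hn : ∀ p ∈ S, ∑ j ∈ range J, a p j ^ 2 ≤ M) (b : ℕ → ℝ) :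
    ∑ j ∈ range J, (∑ p ∈ S, b p * a p j) ^ 2 ≤ M * ∑ p ∈ S, b p ^ 2 := by
  have h1 : ∑ j ∈ range J, (∑ p ∈ S, b p * a p j) ^ 2 =
      ∑ p ∈ S, ∑ p' ∈ S, b p * b p' * ∑ j ∈ range J, a p j * a p' j := by
    have h2 : ∀ j ∈ range J, (∑ p ∈ S, b p * a p j) ^ 2 =
        ∑ p ∈ S, ∑ p' ∈ S, b p * b p' * (a p j * a p' j) := by
      intro j _
      rw [sq, Finset.sum_mul_sum]
      exact Finset.sum_congr rfl fun p _ => Finset.sum_congr rfl fun p' _ => by ring
    rw [Finset.sum_congr rfl h2, Finset.sum_comm]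
    refine Finset.sum_congr rfl fun p _ => ?_
    rw [Finset.sum_comm]
    refine Finset.sum_congr rfl fun p' _ => ?_
    rw [Finset.mul_sum]
  rw [h1, Finset.mul_sum]
  refine Finset.sum_le_sum fun p hp => ?_
  rw [Finset.sum_eq_single_of_mem p hp (fun p' hp' hne => by rw [ho p hp p' hp' (Ne.symm hne), mul_zero])]
  have h3 : ∑ j ∈ range J, a p j * a p j = ∑ j ∈ range J, a p j ^ 2 :=
    Finset.sum_congr rfl fun j _ => by ring
  rw [h3]
  have := mul_le_mul_of_nonneg_left (hn p hp) (sq_nonneg (b p))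
  nlinarith

lemma bessel {S : Finset ℕ} {a : ℕ → ℕ → ℝ} {J : ℕ} {M : ℝ} (hM : 0 ≤ M)
    (ho : ∀ p ∈ S, ∀ p' ∈ S, p ≠ p' → ∑ j ∈ range J, a p j * a p' j = 0)
    (hn : ∀ p ∈ S, ∑ j ∈ range J, a p j ^ 2 ≤ M) {G : Finset ℕ} (hG : G ⊆ range J) (h : ℕ → ℝ) :
    ∑ p ∈ S, (∑ j ∈ G, h j * a p j) ^ 2 ≤ M * ∑ j ∈ G, h j ^ 2 := by
  set b : ℕ → ℝ := fun p => ∑ j ∈ G, h j * a p j with hb
  have hB : ∑ p ∈ S, (∑ j ∈ G, h j * a p j) ^ 2 = ∑ p ∈ S, b p ^ 2 := rfl
  rw [hB]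
  have h1 : ∑ p ∈ S, b p ^ 2 = ∑ j ∈ G, h j * ∑ p ∈ S, b p * a p j := by
    have h2 : ∀ p ∈ S, b p ^ 2 = ∑ j ∈ G, h j * (b p * a p j) := by
      intro p _
      rw [sq]
      conv_lhs => rw [hb]
      rw [Finset.sum_mul]
      exact Finset.sum_congr rfl fun j _ => by rw [hb]; ring
    rw [Finset.sum_congr rfl h2, Finset.sum_comm]
    exact Finset.sum_congr rfl fun j _ => by rw [Finset.mul_sum]
  have h2 : (∑ p ∈ S, b p ^ 2) ^ 2 ≤ (∑ j ∈ G, h j ^ 2) * ∑ j ∈ G, (∑ p ∈ S, b p * a p j) ^ 2 := by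
    rw [h1]
    exact Finset.sum_mul_sq_le_sq_mul_sq _ _ _
  have h3 : ∑ j ∈ G, (∑ p ∈ S, b p * a p j) ^ 2 ≤ ∑ j ∈ range J, (∑ p ∈ S, b p * a p j) ^ 2 :=
    Finset.sum_le_sum_of_subset_of_nonneg hG fun _ _ _ => sq_nonneg _
  have h4 := sq_norm ho hn b
  have h5 : 0 ≤ ∑ p ∈ S, b p ^ 2 := Finset.sum_nonneg fun _ _ => sq_nonneg _
  have h6 : 0 ≤ ∑ j ∈ G, h j ^ 2 := Finset.sum_nonneg fun _ _ => sq_nonneg _
  have h7 : (∑ p ∈ S, b p ^ 2) ^ 2 ≤ (M * ∑ j ∈ G, h j ^ 2) * ∑ p ∈ S, b p ^ 2 := by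
    have := mul_le_mul_of_nonneg_left (h3.trans h4) h6
    nlinarith
  rcases h5.eq_or_lt with h8 | h8
  · rw [← h8]; positivity
  · rw [sq] at h7
    exact le_of_mul_le_mul_right h7 h8

/-- Block G -/
theorem riesz (S : Finset ℕ) (a : ℕ → ℕ → ℝ) (J : ℕ) (I : Finset ℕ) (hI : I ⊆ range J) (s : ℕ → ℝ)
    (hs : ∀ j, s j ^ 2 = 1) (K v0 L : ℝ) (hK : 0 < K) (hv0 : 0 < v0) (hL : 4 * Real.log 2 ≤ L)
    (ha : ∀ p ∈ S, ∀ j, |a p j| ≤ K) (hKL : 4 * (L * K ^ 2) ≤ v0)
    (ho : ∀ p ∈ S, ∀ p' ∈ S, p ≠ p' → ∑ j ∈ range J, a p j * a p' j = 0)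
    (hn : ∀ p ∈ S, ∑ j ∈ range J, a p j ^ 2 ≤ J * K / 2)
    (hG : (I.filter (fun j => v0 ≤ ∑ p ∈ S, a p j ^ 2)).Nonempty) :
    pr S (fun T => ∀ j ∈ I, s j * ∑ p ∈ S, sg T p * a p j < (L / 4 - Real.log 2) * Real.sqrt (v0 / L)) ≤
      2 * J * K * (L / v0) * (1 + L * Real.exp L) /
        (I.filter (fun j => v0 ≤ ∑ p ∈ S, a p j ^ 2)).card := by
  classical
  have hlog2 : 0 < Real.log 2 := Real.log_pos (by norm_num)
  have hL0 : 0 < L := by linarith
  set V : ℕ → ℝ := fun j => ∑ p ∈ S, a p j ^ 2 with hV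
  set G : Finset ℕ := I.filter (fun j => v0 ≤ V j) with hGdef
  have hGc : 0 < (G.card : ℝ) := by exact_mod_cast Finset.card_pos.2 hG
  have hGV : ∀ j ∈ G, v0 ≤ V j := fun j hj => (Finset.mem_filter.1 hj).2
  have hGJ : G ⊆ range J := (Finset.filter_subset _ _).trans hI
  set th : ℕ → ℝ := fun j => Real.sqrt (L / V j) with hth
  set t : ℕ → ℕ → ℝ := fun j p => th j * s j * a p j with ht
  have hth2 : ∀ j ∈ G, th j ^ 2 = L / V j := by
    intro j hj
    have := hGV j hj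
    exact Real.sq_sqrt (div_nonneg hL0.le (by linarith))
  have hth3 : ∀ j ∈ G, th j ^ 2 ≤ L / v0 := by
    intro j hj
    rw [hth2 j hj]
    exact div_le_div_of_nonneg_left hL0.le hv0 (hGV j hj)
  have hth0 : ∀ j, 0 ≤ th j := fun j => Real.sqrt_nonneg _
  have hsum : ∀ j ∈ G, ∑ p ∈ S, t j p ^ 2 = L := by
    intro j hj
    have h1 : ∀ p ∈ S, t j p ^ 2 = th j ^ 2 * a p j ^ 2 := by
      intro p _
      have : t j p ^ 2 = th j ^ 2 * s j ^ 2 * a p j ^ 2 := by rw [ht]; ring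
      rw [this, hs, mul_one]
    rw [Finset.sum_congr rfl h1, ← Finset.mul_sum, hth2 j hj]
    have h2 : V j ≠ 0 := by have := hGV j hj; linarith [this, hv0]
    exact div_mul_cancel₀ L h2
  have htab : ∀ j ∈ G, ∀ p ∈ S, |t j p| ≤ 1 / 2 := by
    intro j hj p hp
    have h1 : |t j p| ^ 2 ≤ (1 / 2) ^ 2 := by
      rw [sq_abs]
      have h2 : t j p ^ 2 = th j ^ 2 * a p j ^ 2 := by
        have : t j p ^ 2 = th j ^ 2 * s j ^ 2 * a p j ^ 2 := by rw [ht]; ring
        rw [this, hs, mul_one]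
      have h3 : a p j ^ 2 ≤ K ^ 2 := by
        rw [← sq_abs]
        exact pow_le_pow_left₀ (abs_nonneg _) (ha p hp j) 2
      rw [h2]
      calc th j ^ 2 * a p j ^ 2 ≤ L / v0 * K ^ 2 :=
            mul_le_mul (hth3 j hj) h3 (sq_nonneg _) (by positivity)
        _ = (L * K ^ 2) / v0 := by ring
        _ ≤ (1 / 2) ^ 2 := by rw [div_le_iff₀ hv0]; linarith
    exact (pow_le_pow_iff_left₀ (abs_nonneg _) (by norm_num) (by norm_num)).1 h1
  set w : Finset ℕ → ℕ → ℝ := fun T j => ∏ p ∈ S, (1 + sg T p * t j p) with hw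
  set Z : Finset ℕ → ℝ := fun T => ∑ j ∈ G, w T j with hZ
  have hZ1 : av S Z = G.card := by
    rw [hZ, av_sum]
    simp only [hw, av_riesz]
    simp
  have hZ2 : av S (fun T => Z T ^ 2) = ∑ i ∈ G, ∑ j ∈ G, ∏ p ∈ S, (1 + t i p * t j p) := by
    have h1 : (fun T => Z T ^ 2) = fun T => ∑ i ∈ G, ∑ j ∈ G, w T i * w T j := by
      funext T
      rw [sq, hZ, Finset.sum_mul_sum]
    rw [h1, av_sum]
    refine Finset.sum_congr rfl fun i _ => ?_
    rw [av_sum]
    refine Finset.sum_congr rfl fun j _ => ?_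
    exact av_riesz2 S (t i) (t j)
  set c : ℕ → ℕ → ℝ := fun i j => ∑ p ∈ S, t i p * t j p with hc
  have hcL : ∀ i ∈ G, ∀ j ∈ G, c i j ≤ L := by
    intro i hi j hj
    have h1 : c i j ≤ ∑ p ∈ S, (t i p ^ 2 + t j p ^ 2) / 2 := by
      refine Finset.sum_le_sum fun p _ => ?_
      nlinarith [sq_nonneg (t i p - t j p)]
    rw [← Finset.sum_div, Finset.sum_add_distrib, hsum i hi, hsum j hj] at h1
    linarith
  have hprod : ∀ i ∈ G, ∀ j ∈ G, ∏ p ∈ S, (1 + t i p * t j p) ≤ 1 + c i j + c i j ^ 2 * Real.exp L := by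
    intro i hi j hj
    refine le_trans ?_ (exp_le_quad (hcL i hi j hj) hL0.le)
    rw [hc, Real.exp_sum]
    refine Finset.prod_le_prod (fun p hp => ?_) fun p _ => ?_
    · have h1 := abs_le.1 (htab i hi p hp)
      have h2 := abs_le.1 (htab j hj p hp)
      nlinarith
    · have := Real.add_one_le_exp (t i p * t j p)
      linarith
  set M : ℝ := J * K / 2 with hM
  have hM0 : 0 ≤ M := by positivity
  have hS1 : ∑ i ∈ G, ∑ j ∈ G, c i j ≤ M * (L / v0) * G.card := by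
    have h1 : ∑ i ∈ G, ∑ j ∈ G, c i j = ∑ p ∈ S, (∑ j ∈ G, (th j * s j) * a p j) ^ 2 := by
      have h2 : ∀ p ∈ S, (∑ j ∈ G, (th j * s j) * a p j) ^ 2 = ∑ i ∈ G, ∑ j ∈ G, t i p * t j p := by
        intro p _
        rw [sq, Finset.sum_mul_sum]
      rw [Finset.sum_congr rfl h2]
      symm
      rw [Finset.sum_comm]
      refine Finset.sum_congr rfl fun i _ => ?_
      rw [Finset.sum_comm]
    rw [h1]
    refine (bessel hM0 ho hn hGJ (fun j => th j * s j)).trans ?_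
    have h3 : ∑ j ∈ G, (th j * s j) ^ 2 ≤ ∑ _j ∈ G, L / v0 := by
      refine Finset.sum_le_sum fun j hj => ?_
      rw [mul_pow, hs, mul_one]
      exact hth3 j hj
    rw [Finset.sum_const, nsmul_eq_mul] at h3
    have := mul_le_mul_of_nonneg_left h3 hM0
    linarith
  have hS2 : ∑ i ∈ G, ∑ j ∈ G, c i j ^ 2 ≤ M * (L / v0) * L * G.card := by
    have h1 : ∀ i ∈ G, ∑ j ∈ G, c i j ^ 2 ≤ M * (L / v0) * L := by
      intro i hi
      have h2 : ∀ j ∈ G, c i j ^ 2 ≤ L / v0 * (∑ p ∈ S, t i p * a p j) ^ 2 := by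
        intro j hj
        have h3 : c i j = th j * s j * ∑ p ∈ S, t i p * a p j := by
          rw [hc, Finset.mul_sum]
          exact Finset.sum_congr rfl fun p _ => by rw [ht]; ring
        rw [h3, mul_pow, mul_pow, hs, mul_one]
        exact mul_le_mul_of_nonneg_right (hth3 j hj) (sq_nonneg _)
      refine (Finset.sum_le_sum h2).trans ?_
      rw [← Finset.mul_sum]
      have h4 : ∑ j ∈ G, (∑ p ∈ S, t i p * a p j) ^ 2 ≤ M * L := by
        refine (Finset.sum_le_sum_of_subset_of_nonneg hGJ fun _ _ _ => sq_nonneg _).trans ?_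
        refine (sq_norm ho hn (t i)).trans ?_
        rw [hsum i hi]
      have h5 : 0 ≤ L / v0 := by positivity
      have := mul_le_mul_of_nonneg_left h4 h5
      linarith
    refine (Finset.sum_le_sum h1).trans ?_
    rw [Finset.sum_const, nsmul_eq_mul]
    linarith
  have hvar : av S (fun T => (Z T - G.card) ^ 2) ≤ M * (L / v0) * (1 + L * Real.exp L) * G.card := by
    have h1 : (fun T => (Z T - G.card) ^ 2) = fun T => Z T ^ 2 + ((-2 * G.card) * Z T + (G.card : ℝ) ^ 2) := by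
      funext T; ring
    rw [h1, av_add, av_add, av_mul_left, av_const, hZ1, hZ2]
    have h2 : ∑ i ∈ G, ∑ j ∈ G, ∏ p ∈ S, (1 + t i p * t j p) ≤
        ∑ i ∈ G, ∑ j ∈ G, (1 + c i j + c i j ^ 2 * Real.exp L) :=
      Finset.sum_le_sum fun i hi => Finset.sum_le_sum fun j hj => hprod i hi j hj
    have h3 : ∑ i ∈ G, ∑ j ∈ G, (1 + c i j + c i j ^ 2 * Real.exp L) =
        (G.card : ℝ) ^ 2 + ∑ i ∈ G, ∑ j ∈ G, c i j + (∑ i ∈ G, ∑ j ∈ G, c i j ^ 2) * Real.exp L := by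
      simp only [Finset.sum_add_distrib, Finset.sum_const, nsmul_eq_mul, mul_one, Finset.sum_mul]
      ring
    have h4 := mul_le_mul_of_nonneg_right hS2 (Real.exp_pos L).le
    rw [h3] at h2
    nlinarith [h2, hS1, h4]
  -- the event forces `Z ≤ G.card / 2`
  have hev : ∀ T, (∀ j ∈ I, s j * ∑ p ∈ S, sg T p * a p j < (L / 4 - Real.log 2) * Real.sqrt (v0 / L)) →
      Z T ≤ G.card / 2 := by
    intro T hT
    have h1 : ∀ j ∈ G, w T j ≤ 1 / 2 := by
      intro j hj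
      have h2 : w T j ≤ Real.exp (th j * (s j * ∑ p ∈ S, sg T p * a p j) - L / 4) := by
        have h3 : th j * (s j * ∑ p ∈ S, sg T p * a p j) - L / 4 =
            ∑ p ∈ S, (sg T p * t j p - (sg T p * t j p) ^ 2 / 4) := by
          have h4 : ∀ p ∈ S, sg T p * t j p - (sg T p * t j p) ^ 2 / 4 =
              th j * s j * (sg T p * a p j) - t j p ^ 2 / 4 := by
            intro p _
            rw [mul_pow, sg_sq, one_mul, ht]
            ring
          rw [Finset.sum_congr rfl h4, Finset.sum_sub_distrib, ← Finset.sum_div, hsum j hj, ← Finset.mul_sum]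
          ring
        rw [h3, Real.exp_sum]
        refine Finset.prod_le_prod (fun p hp => ?_) fun p hp => ?_
        · have h5 : |sg T p * t j p| ≤ 1 / 2 := by
            rw [abs_mul, abs_sg, one_mul]
            exact htab j hj p hp
          have := (abs_le.1 h5).1
          linarith
        · refine one_add_le_exp ?_
          rw [abs_mul, abs_sg, one_mul]
          exact htab j hj p hp
      refine h2.trans ?_
      have hj' : j ∈ I := (Finset.mem_filter.1 hj).1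
      have h5 := hT j hj'
      have hVj := hGV j hj
      have hVj0 : 0 < V j := by linarith
      have hthp : 0 < th j := Real.sqrt_pos.2 (div_pos hL0 hVj0)
      have h6 : th j * (s j * ∑ p ∈ S, sg T p * a p j) ≤ L / 4 - Real.log 2 := by
        have h7 : th j * Real.sqrt (v0 / L) ≤ 1 := by
          rw [hth, ← Real.sqrt_mul (by positivity)]
          rw [Real.sqrt_le_one]
          rw [div_mul_div_comm, div_le_one (by positivity)]
          nlinarith
        have h8 : 0 ≤ L / 4 - Real.log 2 := by linarith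
        calc th j * (s j * ∑ p ∈ S, sg T p * a p j)
            ≤ th j * ((L / 4 - Real.log 2) * Real.sqrt (v0 / L)) := mul_le_mul_of_nonneg_left h5.le hthp.le
          _ = (L / 4 - Real.log 2) * (th j * Real.sqrt (v0 / L)) := by ring
          _ ≤ (L / 4 - Real.log 2) * 1 := mul_le_mul_of_nonneg_left h7 h8
          _ = L / 4 - Real.log 2 := by ring
      have h9 : Real.exp (-Real.log 2) = 1 / 2 := by
        rw [Real.exp_neg, Real.exp_log (by norm_num)]
        norm_num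
      rw [← h9]
      exact Real.exp_le_exp.2 (by linarith)
    have h2 : Z T ≤ ∑ _j ∈ G, (1 / 2 : ℝ) := Finset.sum_le_sum h1
    rw [Finset.sum_const, nsmul_eq_mul] at h2
    linarith
  -- Chebyshev
  have hmain : pr S (fun T => ∀ j ∈ I, s j * ∑ p ∈ S, sg T p * a p j <
      (L / 4 - Real.log 2) * Real.sqrt (v0 / L)) ≤
      M * (L / v0) * (1 + L * Real.exp L) * G.card / ((G.card : ℝ) ^ 2 / 4) := by
    refine (pr_mono (Q := fun T => (G.card : ℝ) ^ 2 / 4 ≤ (Z T - G.card) ^ 2) fun T _ hT => ?_).trans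
      (markov (fun T _ => sq_nonneg _) (by positivity) hvar)
    have := hev T hT
    nlinarith [sq_nonneg (Z T), this, hGc]
  refine hmain.trans (le_of_eq ?_)
  rw [hM]
  field_simp
  ring

end Pool.Agent.Helper11.RL
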