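import Pool.Agent.Helper11.RL.A
import Pool.Agent.Helper11.RL.I
import Pool.Agent.Helper96.RL.Block
import Pool.Agent.Helper51.RL.F

/-! Project RL: the lower bound of the random model on every short arc, for all large `N`. -/

set_option autoImplicit false

namespace Pool.Agent.Helper11.RL

open Finset MeasureTheory ProbabilityTheory Pool.Agent.Helper5.RM

theorem almost_sure_low : ∃ c : ℝ, 0 < c ∧ ∀ {Ω : Type*} [MeasurableSpace Ω] (μ : Measure Ω)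
    [IsProbabilityMeasure μ] (ε : Nat.Primes → Ω → ℝ) (_ : ∀ p, Measurable (ε p)) (_ : iIndepFun ε μ)
    (_ : ∀ p, μ {ω | ε p ω = -1} = 1 / 2) (_ : ∀ p, μ {ω | ε p ω = 1} = 1 / 2),
    ∀ᵐ ω ∂μ, ∃ N0 : ℕ, ∀ N : ℕ, N0 ≤ N → ∀ a : ℝ, ∃ x : ℝ, a ≤ x ∧ x ≤ a + (N : ℝ) ^ (-(1 / 5) : ℝ) ∧
      c * Real.sqrt (N * Real.log N) ≤ ‖∑ n ∈ Finset.Icc 1 N, (rs (ext ε) ω n : ℂ) * e (n * x)‖ := by
  obtain ⟨c, hc, N0, hb⟩ := block_of (fun hK T0 T1 h0 h1 x => decomp hK T0 T1 h0 h1 x) nt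
  exact ⟨c / 8, by positivity, fun μ _ ε hm hi h2 h1 => low_of_block hc hb μ ε hm hi h2 h1⟩

end Pool.Agent.Helper11.RL
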